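import Pool.Agent.TH826.GA.Dom
set_option autoImplicit false

/-!
The hypersurfaces `λ ∏_e L_e = 1` are smooth for large `λ`.
-/

namespace Pool.Agent.TH826.GA

section gen

variable {K : Type*} [Field K] {d m : ℕ} {c : Fin (m + 1) → Fin (d + 1) → K}
  {a : Fin (m + 1) → K}

/-- the vertex of the arrangement on the hyperplanes `T` -/
noncomputable def vtx (c : Fin (m + 1) → Fin (d + 1) → K) (a : Fin (m + 1) → K)
    (T : Fin (d + 1) → Fin (m + 1)) (j : Fin (d + 1)) : K :=
  ∑ i, (cm c T)⁻¹ j i * a (T i)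

theorem eval_vtx (T : Fin (d + 1) → Fin (m + 1)) (e : Fin (m + 1)) :
    ∑ j, c e j * vtx c a T j = ∑ l, al c T e l * a (T l) := by
  unfold vtx al
  simp only [Finset.mul_sum, Finset.sum_mul]
  rw [Finset.sum_comm]
  simp only [mul_assoc]

theorem const_ne (hdet : ∀ T : Fin (d + 1) → Fin (m + 1), Function.Injective T → (cm c T).det ≠ 0)
    (hgen : ∀ S : Fin (d + 2) → Fin (m + 1), Function.Injective S → ∀ x : Fin (d + 1) → K,
      ∃ i, ∑ j, c (S i) j * x j ≠ a (S i)) {S : Fin (d + 2) → Fin (m + 1)}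
    (hS : Function.Injective S) : ∑ i, gam c S i * a (S i) ≠ 0 := by
  intro h0
  set T : Fin (d + 1) → Fin (m + 1) := fun p => S ((0 : Fin (d + 2)).succAbove p) with hT
  have hTi : Function.Injective T := injective_face hS 0
  have hTd := hdet T hTi
  have h1 : ∀ i : Fin (d + 1), ∑ j, c (S i.succ) j * vtx c a T j = a (S i.succ) := by
    intro i
    have h2 : S i.succ = T i := by
      simp [hT]
    rw [h2, eval_vtx]
    simp only [al_T T hTd]
    simp
  have h2 : ∑ i, gam c S i * (∑ j, c (S i) j * vtx c a T j) = 0 := by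
    simp only [Finset.mul_sum, ← mul_assoc]
    rw [Finset.sum_comm]
    simp only [← Finset.sum_mul, sum_gam, zero_mul, Finset.sum_const_zero]
  obtain ⟨i, hi⟩ := hgen S hS (vtx c a T)
  rw [Fin.sum_univ_succ] at h0 h2
  simp only [h1] at h2
  have h3 : gam c S 0 * (∑ j, c (S 0) j * vtx c a T j - a (S 0)) = 0 := by
    rw [mul_sub]
    linear_combination h2 - h0
  have hg : gam c S 0 ≠ 0 := by
    unfold gam
    exact mul_ne_zero (pow_ne_zero _ (by norm_num)) hTd
  rcases Fin.eq_zero_or_eq_succ i with hi0 | ⟨j, hj⟩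
  · rw [hi0] at hi
    exact hi (sub_eq_zero.1 ((mul_eq_zero.1 h3).resolve_left hg))
  · rw [hj] at hi
    exact hi (h1 j)

end gen

section smooth

variable {K : Type*} [Field K] {d m : ℕ} {c : Fin (m + 1) → Fin (d + 1) → K}
  {a : Fin (m + 1) → K}

/-- the complex affine forms -/
noncomputable def lc (σ : K →+* ℂ) (c : Fin (m + 1) → Fin (d + 1) → K) (a : Fin (m + 1) → K)
    (x : Fin (d + 1) → ℂ) (e : Fin (m + 1)) : ℂ := ∑ j, σ (c e j) * x j - σ (a e)

theorem eval_lf (σ : K →+* ℂ) (x : Fin (d + 1) → ℂ) (e : Fin (m + 1)) :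
    MvPolynomial.eval₂ σ x (lf c a e) = lc σ c a x e := by
  unfold lf lc
  rw [MvPolynomial.eval₂_sub, MvPolynomial.eval₂_C, MvPolynomial.eval₂_sum]
  simp only [MvPolynomial.eval₂_mul, MvPolynomial.eval₂_C, MvPolynomial.eval₂_X]

theorem eval_geqn (σ : K →+* ℂ) (lam : K) (x : Fin (d + 1) → ℂ) :
    MvPolynomial.eval₂ σ x (geqn lam c a) = σ lam * ∏ e, lc σ c a x e - 1 := by
  unfold geqn
  rw [MvPolynomial.eval₂_sub, MvPolynomial.eval₂_mul, MvPolynomial.eval₂_C,
    MvPolynomial.eval₂_one, MvPolynomial.eval₂_prod]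
  simp only [eval_lf]

theorem eval_pderiv_prod {ι : Type*} [DecidableEq ι] (σ : K →+* ℂ) (x : Fin (d + 1) → ℂ)
    (j : Fin (d + 1)) (f : ι → MvPolynomial (Fin (d + 1)) K) (s : Finset ι)
    (h : ∀ e ∈ s, MvPolynomial.eval₂ σ x (f e) ≠ 0) :
    MvPolynomial.eval₂ σ x (MvPolynomial.pderiv j (∏ e ∈ s, f e)) =
      (∑ e ∈ s, MvPolynomial.eval₂ σ x (MvPolynomial.pderiv j (f e)) *
        (MvPolynomial.eval₂ σ x (f e))⁻¹) * MvPolynomial.eval₂ σ x (∏ e ∈ s, f e) := by
  induction s using Finset.induction_on with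
  | empty => simp
  | insert e s he ih =>
    have h1 := ih fun e he => h e (Finset.mem_insert_of_mem he)
    have h2 := h e (Finset.mem_insert_self _ _)
    rw [Finset.prod_insert he, Finset.sum_insert he, Derivation.leibniz]
    simp only [smul_eq_mul]
    rw [MvPolynomial.eval₂_add, MvPolynomial.eval₂_mul, MvPolynomial.eval₂_mul,
      MvPolynomial.eval₂_mul, h1]
    field_simp
    ring

theorem pderiv_lf (j : Fin (d + 1)) (e : Fin (m + 1)) :
    MvPolynomial.pderiv j (lf c a e) = MvPolynomial.C (c e j) := by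
  unfold lf
  rw [map_sub, MvPolynomial.pderiv_C, sub_zero, map_sum, Finset.sum_eq_single j]
  · simp
  · intro l _ hl
    rw [MvPolynomial.pderiv_C_mul, MvPolynomial.pderiv_X_of_ne hl]
    simp
  · intro h
    exact absurd (Finset.mem_univ j) h

theorem sum_gam_lc (σ : K →+* ℂ) (x : Fin (d + 1) → ℂ) (S : Fin (d + 2) → Fin (m + 1)) :
    ∑ i, σ (gam c S i) * lc σ c a x (S i) = - σ (∑ i, gam c S i * a (S i)) := by
  have h1 : ∀ i, σ (gam c S i) * lc σ c a x (S i) =
      ∑ j, σ (gam c S i * c (S i) j) * x j - σ (gam c S i * a (S i)) := by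
    intro i
    unfold lc
    rw [mul_sub, Finset.mul_sum]
    simp only [map_mul, mul_assoc]
  simp only [h1, Finset.sum_sub_distrib]
  rw [Finset.sum_comm, map_sum]
  have h2 : ∀ j, ∑ i, σ (gam c S i * c (S i) j) * x j = 0 := by
    intro j
    rw [← Finset.sum_mul, ← map_sum, sum_gam, map_zero, zero_mul]
  simp only [h2, Finset.sum_const_zero, zero_sub]

/-- no `d + 2` of the forms are small at the same time -/
theorem exists_delta (σ : K →+* ℂ)
    (hdet : ∀ T : Fin (d + 1) → Fin (m + 1), Function.Injective T → (cm c T).det ≠ 0)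
    (hgen : ∀ S : Fin (d + 2) → Fin (m + 1), Function.Injective S → ∀ x : Fin (d + 1) → K,
      ∃ i, ∑ j, c (S i) j * x j ≠ a (S i)) :
    ∃ δ : ℝ, 0 < δ ∧ ∀ (x : Fin (d + 1) → ℂ) (S : Fin (d + 2) → Fin (m + 1)),
      Function.Injective S → ∃ i, δ ≤ ‖lc σ c a x (S i)‖ := by
  have h1 : ∀ S : Fin (d + 2) → Fin (m + 1), ∀ᶠ δ in nhdsWithin (0 : ℝ) (Set.Ioi 0),
      Function.Injective S → (∑ i, ‖σ (gam c S i)‖) * δ < ‖σ (∑ i, gam c S i * a (S i))‖ := by
    intro S
    by_cases hS : Function.Injective S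
    · have h2 : 0 < ‖σ (∑ i, gam c S i * a (S i))‖ :=
        norm_pos_iff.2 ((map_ne_zero σ).2 (const_ne hdet hgen hS))
      have hc : ContinuousAt (fun δ : ℝ => (∑ i, ‖σ (gam c S i)‖) * δ) 0 := by fun_prop
      have h3 : ∀ᶠ δ in nhds (0 : ℝ), (∑ i, ‖σ (gam c S i)‖) * δ <
          ‖σ (∑ i, gam c S i * a (S i))‖ :=
        hc.eventually_lt continuousAt_const (by simpa using h2)
      filter_upwards [nhdsWithin_le_nhds h3] with ρ hρ _ using hρ
    · exact Filter.Eventually.of_forall fun ρ h => absurd h hS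
  obtain ⟨δ, hδ1, hδ2⟩ := ((Filter.eventually_all.2 h1).and self_mem_nhdsWithin).exists
  refine ⟨δ, hδ2, fun x S hS => ?_⟩
  by_contra hcon
  push Not at hcon
  have h3 := hδ1 S hS
  have h4 : ‖σ (∑ i, gam c S i * a (S i))‖ ≤ (∑ i, ‖σ (gam c S i)‖) * δ := by
    rw [← norm_neg, ← sum_gam_lc σ x S, Finset.sum_mul]
    refine (norm_sum_le _ _).trans (Finset.sum_le_sum fun i _ => ?_)
    rw [norm_mul]
    exact mul_le_mul_of_nonneg_left (hcon i).le (norm_nonneg _)
  linarith

/-- every set of at most `d + 1` indices is contained in the image of an injection -/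
theorem exists_cover (hm : d + 1 ≤ m) (A : Finset (Fin (m + 1))) (hA : A.card ≤ d + 1) :
    ∃ T : Fin (d + 1) → Fin (m + 1), Function.Injective T ∧ ∀ e ∈ A, ∃ i, T i = e := by
  obtain ⟨u, h1, -, h3⟩ := Finset.exists_subsuperset_card_eq (Finset.subset_univ A) hA
    (by rw [Finset.card_univ, Fintype.card_fin]; omega)
  refine ⟨u.orderEmbOfFin h3, (u.orderEmbOfFin h3).injective, fun e he => ?_⟩
  have h4 : e ∈ Set.range (u.orderEmbOfFin h3) := by
    rw [Finset.range_orderEmbOfFin]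
    exact h1 he
  exact h4

theorem exists_smooth (σ : K →+* ℂ)
    (hdet : ∀ T : Fin (d + 1) → Fin (m + 1), Function.Injective T → (cm c T).det ≠ 0)
    (hgen : ∀ S : Fin (d + 2) → Fin (m + 1), Function.Injective S → ∀ x : Fin (d + 1) → K,
      ∃ i, ∑ j, c (S i) j * x j ≠ a (S i)) (hm : d + 1 ≤ m) :
    ∃ C : ℝ, ∀ lam : K, C ≤ ‖σ lam‖ → ∀ x : Fin (d + 1) → ℂ,
      MvPolynomial.eval₂ σ x (geqn lam c a) = 0 →
      ∃ j, MvPolynomial.eval₂ σ x (MvPolynomial.pderiv j (geqn lam c a)) ≠ 0 := by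
  classical
  obtain ⟨δ, hδ, hδ1⟩ := exists_delta σ hdet hgen
  set W : ℝ := ∑ T : Fin (d + 1) → Fin (m + 1), ∑ i, ∑ e, ‖σ (al c T e i)‖ with hW
  have hW0 : 0 ≤ W := Finset.sum_nonneg fun T _ => Finset.sum_nonneg fun i _ =>
    Finset.sum_nonneg fun e _ => norm_nonneg _
  have hWT : ∀ T i, ∑ e, ‖σ (al c T e i)‖ ≤ W := fun T i =>
    (Finset.single_le_sum (f := fun i => ∑ e, ‖σ (al c T e i)‖)
      (fun i _ => Finset.sum_nonneg fun e _ => norm_nonneg _) (Finset.mem_univ i)).trans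
    (Finset.single_le_sum (f := fun T => ∑ i, ∑ e, ‖σ (al c T e i)‖)
      (fun T _ => Finset.sum_nonneg fun i _ => Finset.sum_nonneg fun e _ => norm_nonneg _)
      (Finset.mem_univ T))
  set ε : ℝ := δ / (W + 1) with hε
  have hε0 : 0 < ε := by positivity
  have hεδ : ε ≤ δ := by
    rw [hε, div_le_iff₀ (by positivity)]
    nlinarith
  refine ⟨1 / ε ^ (m + 1) + 1, fun lam hlam x hx => ?_⟩
  rw [eval_geqn, sub_eq_zero] at hx
  have hprod : σ lam ≠ 0 ∧ ∏ e, lc σ c a x e ≠ 0 := by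
    rw [← mul_ne_zero_iff, hx]
    exact one_ne_zero
  have hu : ∀ e, lc σ c a x e ≠ 0 := fun e =>
    (Finset.prod_ne_zero_iff.1 hprod.2) e (Finset.mem_univ e)
  by_contra hcon
  push Not at hcon
  -- the gradient
  have hgrad : ∀ j, ∑ e, σ (c e j) * (lc σ c a x e)⁻¹ = 0 := by
    intro j
    have h1 := hcon j
    unfold geqn at h1
    rw [map_sub, MvPolynomial.pderiv_one, sub_zero, MvPolynomial.pderiv_C_mul,
      MvPolynomial.eval₂_mul, MvPolynomial.eval₂_C,
      eval_pderiv_prod σ x j _ _ (fun e _ => by rw [eval_lf]; exact hu e)] at h1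
    simp only [pderiv_lf, MvPolynomial.eval₂_C, eval_lf, MvPolynomial.eval₂_prod] at h1
    have h2 : (∑ e, σ (c e j) * (lc σ c a x e)⁻¹) * (σ lam * ∏ e, lc σ c a x e) = 0 := by
      linear_combination h1
    rwa [hx, mul_one] at h2
  -- the small forms
  set A : Finset (Fin (m + 1)) := Finset.univ.filter fun e => ‖lc σ c a x e‖ < δ with hA
  have hAc : A.card ≤ d + 1 := by
    by_contra h
    push Not at h
    obtain ⟨u, h1, h2⟩ := Finset.exists_subset_card_eq (show d + 2 ≤ A.card by omega)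
    obtain ⟨i, hi⟩ := hδ1 x (u.orderEmbOfFin h2) (u.orderEmbOfFin h2).injective
    have h3 : u.orderEmbOfFin h2 i ∈ A := h1 (Finset.orderEmbOfFin_mem u h2 i)
    exact absurd (Finset.mem_filter.1 h3).2 (not_lt.2 hi)
  obtain ⟨T, hT, hTA⟩ := exists_cover hm A hAc
  have hTd := hdet T hT
  have hfar : ∀ e, ε ≤ ‖lc σ c a x e‖ := by
    intro e0
    by_cases he0 : e0 ∈ A
    · obtain ⟨i0, rfl⟩ := hTA e0 he0
      have h1 : ∑ e, σ (al c T e i0) * (lc σ c a x e)⁻¹ = 0 := by
        have h2 : ∀ e, σ (al c T e i0) * (lc σ c a x e)⁻¹ =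
            ∑ j, σ ((cm c T)⁻¹ j i0) * (σ (c e j) * (lc σ c a x e)⁻¹) := by
          intro e
          unfold al
          rw [map_sum, Finset.sum_mul]
          refine Finset.sum_congr rfl fun j _ => ?_
          rw [map_mul]
          ring
        simp only [h2]
        rw [Finset.sum_comm]
        simp only [← Finset.mul_sum, hgrad, mul_zero, Finset.sum_const_zero]
      have h2 : (lc σ c a x (T i0))⁻¹ =
          - ∑ e ∈ Finset.univ.erase (T i0), σ (al c T e i0) * (lc σ c a x e)⁻¹ := by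
        rw [← Finset.add_sum_erase _ _ (Finset.mem_univ (T i0)), al_T T hTd, if_pos rfl, map_one,
          one_mul] at h1
        linear_combination h1
      have h3 : ‖(lc σ c a x (T i0))⁻¹‖ ≤ W / δ := by
        rw [h2, norm_neg]
        refine (norm_sum_le _ _).trans ?_
        have h4 : ∀ e ∈ Finset.univ.erase (T i0), ‖σ (al c T e i0) * (lc σ c a x e)⁻¹‖ ≤
            ‖σ (al c T e i0)‖ / δ := by
          intro e he
          by_cases heA : e ∈ A
          · obtain ⟨i, hi⟩ := hTA e heA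
            have h5 : i ≠ i0 := by
              intro h
              rw [h] at hi
              exact Finset.ne_of_mem_erase he hi.symm
            rw [← hi, al_T T hTd, if_neg h5]
            simp
          · have h5 : δ ≤ ‖lc σ c a x e‖ := by
              by_contra h
              push Not at h
              exact heA (Finset.mem_filter.2 ⟨Finset.mem_univ e, h⟩)
            rw [norm_mul, norm_inv, div_eq_mul_inv]
            exact mul_le_mul_of_nonneg_left (inv_anti₀ hδ h5) (norm_nonneg _)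
        refine (Finset.sum_le_sum h4).trans ?_
        rw [← Finset.sum_div]
        refine div_le_div_of_nonneg_right ?_ hδ.le
        exact (Finset.sum_le_sum_of_subset_of_nonneg (Finset.subset_univ _)
          fun e _ _ => norm_nonneg _).trans (hWT T i0)
      have h5 : 0 < ‖lc σ c a x (T i0)‖ := norm_pos_iff.2 (hu _)
      rw [norm_inv, inv_le_iff_one_le_mul₀ h5] at h3
      rw [hε, div_le_iff₀ (by positivity)]
      have h6 : δ ≤ W * ‖lc σ c a x (T i0)‖ := by
        have h7 : W / δ * ‖lc σ c a x (T i0)‖ = W * ‖lc σ c a x (T i0)‖ / δ := by ring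
        rw [h7, le_div_iff₀ hδ, one_mul] at h3
        exact h3
      nlinarith
    · refine hεδ.trans ?_
      by_contra h
      push Not at h
      exact he0 (Finset.mem_filter.2 ⟨Finset.mem_univ e0, h⟩)
  have h5 : ε ^ (m + 1) ≤ ‖∏ e, lc σ c a x e‖ := by
    rw [norm_prod]
    calc ε ^ (m + 1) = ∏ _e : Fin (m + 1), ε := by simp
      _ ≤ _ := Finset.prod_le_prod (fun _ _ => hε0.le) fun e _ => hfar e
  have h6 := congrArg norm hx
  rw [norm_mul, norm_one] at h6
  have hpos : 0 < ε ^ (m + 1) := by positivity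
  have h7 : 1 / ε ^ (m + 1) < ‖σ lam‖ := by linarith
  rw [div_lt_iff₀ hpos] at h7
  have h8 : ‖σ lam‖ * ε ^ (m + 1) ≤ ‖σ lam‖ * ‖∏ e, lc σ c a x e‖ :=
    mul_le_mul_of_nonneg_left h5 (norm_nonneg _)
  linarith

end smooth

end Pool.Agent.TH826.GA
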