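import Pool.Agent.TH826.GA.Points
import Pool.Agent.TH826.GA.Smooth
import Pool.Agent.TH826.SX.Final
set_option autoImplicit false

/-!
The regulators of the symbols of the simplices of the arrangement, for large `λ`.
-/

namespace Pool.Agent.TH826.GA

open Pool.Agent.TH826.MK

open Pool.Agent.TH826.SX (vrow row row_same row_succAbove dif det_dif_row det_ne_zero_near
  pairing_close contDiff_cons)

section Ev

variable {K : Type*} [Field K] {d n m : ℕ} {σ : K →+* ℂ} {lam : K}
  {c : Fin (m + 1) → Fin (d + 1) → K} {a : Fin (m + 1) → K}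

/-- the complex points of the hypersurface -/
def Pt (σ : K →+* ℂ) (lam : K) (c : Fin (m + 1) → Fin (d + 1) → K) (a : Fin (m + 1) → K)
    (x : Fin (d + 1) → ℂ) : Prop := σ lam * ∏ e, lc σ c a x e = 1

/-- evaluation of the regular functions at a complex point -/
noncomputable def evG {x : Fin (d + 1) → ℂ} (hx : Pt σ lam c a x) : GRing lam c a →+* ℂ :=
  Ideal.Quotient.lift (Ideal.span {geqn lam c a}) (MvPolynomial.eval₂Hom σ x) (by
    intro p hp
    have hle : Ideal.span {geqn lam c a} ≤ RingHom.ker (MvPolynomial.eval₂Hom σ x) := by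
      rw [Ideal.span_le]
      rintro q rfl
      show MvPolynomial.eval₂ σ x (geqn lam c a) = 0
      rw [eval_geqn, sub_eq_zero]
      exact hx
    exact hle hp)

theorem evG_gpol {x : Fin (d + 1) → ℂ} (hx : Pt σ lam c a x)
    (p : MvPolynomial (Fin (d + 1)) K) : evG hx (gpol lam c a p) = MvPolynomial.eval₂Hom σ x p :=
  Ideal.Quotient.lift_mk _ _ _

theorem evG_gcst {x : Fin (d + 1) → ℂ} (hx : Pt σ lam c a x) (y : K) :
    evG hx (gcst lam c a y) = σ y := by
  show evG hx (gpol lam c a (MvPolynomial.C y)) = _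
  rw [evG_gpol]
  simp

theorem evG_gu {x : Fin (d + 1) → ℂ} (hx : Pt σ lam c a x) (e : Fin (m + 1)) :
    evG hx (gu lam c a e : GRing lam c a) = lc σ c a x e := by
  rw [coe_gu, evG_gpol]
  exact eval_lf σ x e

theorem evG_congr {x y : Fin (d + 1) → ℂ} (hx : Pt σ lam c a x) (hy : Pt σ lam c a y)
    (h : x = y) : evG hx = evG hy := by
  subst h
  rfl

theorem contDiff_evG {x : (Fin n → ℝ) → (Fin (d + 1) → ℂ)} (hc : ContDiff ℝ 2 x)
    (hx : ∀ θ, Pt σ lam c a (x θ)) (h : GRing lam c a) :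
    ContDiff ℝ 2 fun θ => evG (hx θ) h := by
  have hxk : ∀ k, ContDiff ℝ 2 fun θ => x θ k := fun k => contDiff_pi.1 hc k
  obtain ⟨p, hp⟩ := Ideal.Quotient.mk_surjective h
  have hmv : ∀ p : MvPolynomial (Fin (d + 1)) K,
      ContDiff ℝ 2 fun θ => MvPolynomial.eval₂Hom σ (x θ) p := by
    intro p
    induction p using MvPolynomial.induction_on with
    | C c => simpa using contDiff_const
    | add p q hp hq => simpa using hp.add hq
    | mul_X p k hp => simpa using hp.mul (hxk k)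
  have e : (fun θ => evG (hx θ) h) = fun θ => MvPolynomial.eval₂Hom σ (x θ) p := by
    funext θ
    rw [← hp]
    exact evG_gpol (hx θ) p
  rw [e]
  exact hmv p

/-- a torus in the hypersurface -/
noncomputable def mkG (x : (Fin n → ℝ) → (Fin (d + 1) → ℂ)) (hc : ContDiff ℝ 2 x)
    (hp : ∀ θ i, x (θ + Pi.single i 1) = x θ)
    (hx : ∀ θ, Pt σ lam c a (x θ)) : Torus (GRing lam c a) n where
  e θ := evG (hx θ)
  smooth h := contDiff_evG hc hx h
  periodic θ i := evG_congr _ _ (hp θ i)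

theorem mkG_gz (x : (Fin n → ℝ) → (Fin (d + 1) → ℂ)) (hc : ContDiff ℝ 2 x)
    (hp : ∀ θ i, x (θ + Pi.single i 1) = x θ) (hx : ∀ θ, Pt σ lam c a (x θ))
    (S : Fin (d + 2) → Fin (m + 1)) (i : Fin (d + 2)) (hγ : gam c S i ≠ 0) :
    (mkG x hc hp hx).fn (gz lam c a S i : GRing lam c a) =
      fun θ => σ (gam c S i) * lc σ c a (x θ) (S i) := by
  funext θ
  show evG (hx θ) (gz lam c a S i : GRing lam c a) = _
  unfold gz
  rw [Units.val_mul, map_mul, evG_gu, Units.coe_map]
  congr 1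
  show evG (hx θ) (gcst lam c a (ku (gam c S i) : K)) = _
  rw [evG_gcst, coe_ku hγ]

end Ev

section coord

variable {K : Type*} [Field K] {d m : ℕ} {c : Fin (m + 1) → Fin (d + 1) → K}
  {a : Fin (m + 1) → K}

/-- the point with the coordinates `u` at the vertex `T` -/
noncomputable def xv (σ : K →+* ℂ) (c : Fin (m + 1) → Fin (d + 1) → K) (a : Fin (m + 1) → K)
    (T : Fin (d + 1) → Fin (m + 1)) (u : (Fin d → ℂ) × ℂ) (j : Fin (d + 1)) : ℂ :=
  ∑ i, σ ((cm c T)⁻¹ j i) * ((Fin.cons u.2 u.1 : Fin (d + 1) → ℂ) i + σ (a (T i)))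

theorem lc_xv (σ : K →+* ℂ) (T : Fin (d + 1) → Fin (m + 1)) (u : (Fin d → ℂ) × ℂ)
    (e : Fin (m + 1)) : lc σ c a (xv σ c a T u) e =
      ∑ l, σ (al c T e l) * (Fin.cons u.2 u.1 : Fin (d + 1) → ℂ) l + σ (be c a T e) := by
  unfold lc xv be al
  simp only [map_sub, map_sum, map_mul, mul_add, Finset.sum_add_distrib, Finset.mul_sum,
    Finset.sum_mul]
  rw [Finset.sum_comm, Finset.sum_comm (f := fun j i => σ (c e j) *
    (σ ((cm c T)⁻¹ j i) * σ (a (T i))))]
  simp only [mul_assoc]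
  ring

theorem contDiff_xv (σ : K →+* ℂ) (T : Fin (d + 1) → Fin (m + 1)) :
    ContDiff ℂ 2 (xv σ c a T) := by
  refine contDiff_pi.2 fun j => ?_
  unfold xv
  exact ContDiff.sum fun i _ => contDiff_const.mul ((contDiff_cons i).add contDiff_const)

theorem contDiff_lc (σ : K →+* ℂ) (T : Fin (d + 1) → Fin (m + 1)) (e : Fin (m + 1)) :
    ContDiff ℂ 2 fun u => lc σ c a (xv σ c a T u) e := by
  unfold lc
  exact (ContDiff.sum fun j _ => contDiff_const.mul
    (contDiff_pi.1 (contDiff_xv σ T) j)).sub contDiff_const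

theorem be_ne (hdet : ∀ T : Fin (d + 1) → Fin (m + 1), Function.Injective T → (cm c T).det ≠ 0)
    (hgen : ∀ S : Fin (d + 2) → Fin (m + 1), Function.Injective S → ∀ x : Fin (d + 1) → K,
      ∃ i, ∑ j, c (S i) j * x j ≠ a (S i)) {T : Fin (d + 1) → Fin (m + 1)}
    (hT : Function.Injective T) {e : Fin (m + 1)} (he : ∀ j, T j ≠ e) : be c a T e ≠ 0 := by
  have hS : Function.Injective (Fin.cons e T : Fin (d + 2) → Fin (m + 1)) := by
    rw [Fin.cons_injective_iff]
    refine ⟨?_, hT⟩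
    rintro ⟨j, hj⟩
    exact he j hj
  obtain ⟨i, hi⟩ := hgen _ hS (vtx c a T)
  revert hi
  refine Fin.cases ?_ (fun i => ?_) i
  · rw [Fin.cons_zero, eval_vtx]
    intro h
    exact sub_ne_zero.2 h
  · rw [Fin.cons_succ, eval_vtx]
    intro h
    exfalso
    apply h
    simp only [al_T T (hdet T hT)]
    simp

end coord

section main

variable {K : Type*} [Field K] {d m : ℕ} {c : Fin (m + 1) → Fin (d + 1) → K}
  {a : Fin (m + 1) → K}

theorem exists_torus (σ : K →+* ℂ)
    (hdet : ∀ T : Fin (d + 1) → Fin (m + 1), Function.Injective T → (cm c T).det ≠ 0)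
    (hgen : ∀ S : Fin (d + 2) → Fin (m + 1), Function.Injective S → ∀ x : Fin (d + 1) → K,
      ∃ i, ∑ j, c (S i) j * x j ≠ a (S i))
    {T : Fin (d + 1) → Fin (m + 1)} (hT : Function.Injective T) {ε : ℝ} (hε : 0 < ε) :
    ∃ Λ : ℝ, 1 < Λ ∧ ∀ lam : K, Λ ≤ ‖σ lam‖ → ∃ Γ : Torus (GRing lam c a) d,
      (∀ θ x, Γ.e θ (gcst lam c a x) = σ x) ∧
      ∀ S : Fin (d + 2) → Fin (m + 1), Function.Injective S →
        |Γ.reg (symb (gent lam c a S)) / (-Real.log ‖σ lam‖) -
          (2 * Real.pi) ^ d * (dif fun i => rowT T (S i)).det| ≤ ε := by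
  classical
  choose δ hδ hclose using fun S : Fin (d + 2) → Fin (m + 1) =>
    pairing_close (dif fun i => rowT T (S i)) hε
  obtain ⟨S0, -, hS0⟩ := Finset.exists_min_image Finset.univ δ
    ⟨fun _ => 0, Finset.mem_univ _⟩
  set δ0 : ℝ := δ S0 / 5 with hδ0
  have hδ0pos : 0 < δ0 := by
    have := hδ S0
    rw [hδ0]
    linarith
  have hδle : ∀ S, 4 * δ0 < δ S := by
    intro S
    have h1 := hS0 S (Finset.mem_univ S)
    have h2 := hδ S0
    rw [hδ0]
    linarith
  obtain ⟨η0, hη0, hX⟩ := exists_points (H := fun e u => lc σ c a (xv σ c a T u) e) hT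
    (fun e => contDiff_lc σ T e)
    (fun j u => by
      rw [lc_xv, be_T T (hdet T hT)]
      simp only [al_T T (hdet T hT)]
      simp)
    (fun e he => by
      rw [lc_xv]
      have h0 : ∀ l : Fin (d + 1), (Fin.cons (0 : (Fin d → ℂ) × ℂ).2 (0 : (Fin d → ℂ) × ℂ).1 :
          Fin (d + 1) → ℂ) l = 0 := fun l => by
        refine Fin.cases ?_ (fun l => ?_) l
        · rfl
        · rfl
      simp only [h0, mul_zero, Finset.sum_const_zero, zero_add]
      exact (map_ne_zero σ).2 (be_ne hdet hgen hT he)) hδ0pos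
  set G : ℝ := ∑ S : Fin (d + 2) → Fin (m + 1), ∑ i, |Real.log ‖σ (gam c S i)‖| with hG
  have hG0 : 0 ≤ G := Finset.sum_nonneg fun S _ => Finset.sum_nonneg fun i _ => abs_nonneg _
  have hGS : ∀ S i, |Real.log ‖σ (gam c S i)‖| ≤ G := fun S i =>
    (Finset.single_le_sum (f := fun i => |Real.log ‖σ (gam c S i)‖|)
      (fun i _ => abs_nonneg _) (Finset.mem_univ i)).trans
    (Finset.single_le_sum (f := fun S => ∑ i, |Real.log ‖σ (gam c S i)‖|)
      (fun S _ => Finset.sum_nonneg fun i _ => abs_nonneg _) (Finset.mem_univ S))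
  have hinvpos : 0 < 1 / η0 := by positivity
  refine ⟨1 / η0 + 2 + Real.exp (G / δ0), by
    have := Real.exp_pos (G / δ0)
    linarith, fun lam hlam => ?_⟩
  have hexp := Real.exp_pos (G / δ0)
  have hln : 0 < ‖σ lam‖ := by linarith
  have hl0 : σ lam ≠ 0 := norm_pos_iff.1 hln
  have hη : ‖(σ lam)⁻¹‖ < η0 := by
    rw [norm_inv, inv_lt_comm₀ hln hη0, ← one_div]
    linarith
  obtain ⟨hlog, U, hUc, hUp, hUe, hUg, hUest⟩ := hX _ (inv_ne_zero hl0) hη
  have hlogeq : Real.log ‖(σ lam)⁻¹‖ = -Real.log ‖σ lam‖ := by rw [norm_inv, Real.log_inv]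
  rw [hlogeq] at hlog hUest
  have hbig : G ≤ δ0 * |(-Real.log ‖σ lam‖)| := by
    have h1 : G / δ0 ≤ Real.log ‖σ lam‖ := by
      rw [Real.le_log_iff_exp_le hln]
      linarith
    rw [div_le_iff₀ hδ0pos] at h1
    rw [abs_of_neg hlog, neg_neg]
    linarith
  set s : ℝ := -Real.log ‖σ lam‖ with hs
  have hs0 : s ≠ 0 := hlog.ne
  have hspos : 0 < |s| := abs_pos.2 hs0
  have hgs : ∀ S i, |Real.log ‖σ (gam c S i)‖ / s| ≤ δ0 := by
    intro S i
    rw [abs_div, div_le_iff₀ hspos]
    exact (hGS S i).trans hbig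
  set X : (Fin d → ℝ) → (Fin (d + 1) → ℂ) := fun θ => xv σ c a T (U θ) with hXdef
  have hXc : ContDiff ℝ 2 X := ((contDiff_xv σ T).restrict_scalars ℝ).comp hUc
  have hXp : ∀ θ i, X (θ + Pi.single i 1) = X θ := fun θ i => by
    simp only [hXdef, hUp]
  have hPt : ∀ θ, Pt σ lam c a (X θ) := fun θ => by
    have h1 : ∏ e, lc σ c a (X θ) e = (σ lam)⁻¹ := hUe θ
    unfold Pt
    rw [h1]
    exact mul_inv_cancel₀ hl0
  refine ⟨mkG X hXc hXp hPt, fun θ x => evG_gcst (hPt θ) x, fun S hS => ?_⟩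
  rw [Torus.reg_symb]
  set Γ := mkG X hXc hXp hPt with hΓ
  have hγ : ∀ i, gam c S i ≠ 0 := by
    intro i
    unfold gam
    exact mul_ne_zero (pow_ne_zero _ (by norm_num)) (hdet _ (injective_face hS i))
  have hγc : ∀ i, σ (gam c S i) ≠ 0 := fun i => (map_ne_zero σ).2 (hγ i)
  have hgz : ∀ i, Γ.fn (gz lam c a S i : GRing lam c a) =
      fun θ => σ (gam c S i) * lc σ c a (X θ) (S i) := fun i =>
    mkG_gz X hXc hXp hPt S i (hγ i)
  have hgoodZ : ∀ i, Good (Γ.fn (gz lam c a S i : GRing lam c a)) := fun i => Γ.good _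
  have hgoodE : ∀ l, Good (Γ.fn (gent lam c a S l : GRing lam c a)) := fun l => Γ.good _
  -- estimates for the `γ_i L_{S i}`
  have hZlog : ∀ i θ, |Real.log ‖Γ.fn (gz lam c a S i : GRing lam c a) θ‖ / s -
      rowT T (S i) 0| ≤ 2 * δ0 := by
    intro i θ
    rw [congrFun (hgz i) θ, norm_mul, Real.log_mul (norm_ne_zero_iff.2 (hγc i))
      (norm_ne_zero_iff.2 ((hUg (S i)).ne_zero θ)), add_div]
    have h1 := hgs S i
    have h2 := (hUest (S i) θ).1
    have h3 := abs_le.1 h1
    have h4 := abs_le.1 h2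
    rw [abs_le]
    constructor <;> linarith [h3.1, h3.2, h4.1, h4.2]
  have hZlw : ∀ i j θ, ‖lw (Γ.fn (gz lam c a S i : GRing lam c a)) j θ -
      2 * Real.pi * Complex.I * rowT T (S i) j.succ‖ ≤ δ0 := by
    intro i j θ
    have h1 := lw_mul (good_const (d := d) (hγc i)) (hUg (S i)) j θ
    rw [lw_const, zero_add] at h1
    rw [hgz i]
    have h2 : lw (fun θ => σ (gam c S i) * lc σ c a (X θ) (S i)) j θ =
      lw (fun θ => lc σ c a (xv σ c a T (U θ)) (S i)) j θ := h1
    rw [h2]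
    exact (hUest (S i) θ).2 j
  have hmul : ∀ l : Fin (d + 1), (fun θ => Γ.fn (gent lam c a S l : GRing lam c a) θ *
      Γ.fn (gz lam c a S 0 : GRing lam c a) θ) = Γ.fn (gz lam c a S l.succ : GRing lam c a) := by
    intro l
    funext θ
    unfold Torus.fn
    rw [← map_mul, ← Units.val_mul]
    congr 2
    exact div_mul_cancel _ _
  refine hclose S _ _ hs0 hgoodE (fun l θ => ?_) (fun l j θ => ?_)
  · have h1 := hZlog l.succ θ
    have h2 := hZlog 0 θ
    have h3 : Real.log ‖Γ.fn (gent lam c a S l : GRing lam c a) θ *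
        Γ.fn (gz lam c a S 0 : GRing lam c a) θ‖ =
        Real.log ‖Γ.fn (gz lam c a S l.succ : GRing lam c a) θ‖ :=
      congrArg (fun z : ℂ => Real.log ‖z‖) (congrFun (hmul l) θ)
    rw [norm_mul, Real.log_mul (norm_ne_zero_iff.2 ((hgoodE l).ne_zero θ))
      (norm_ne_zero_iff.2 ((hgoodZ 0).ne_zero θ))] at h3
    have h4 : Real.log ‖Γ.fn (gent lam c a S l : GRing lam c a) θ‖ =
        Real.log ‖Γ.fn (gz lam c a S l.succ : GRing lam c a) θ‖ -
        Real.log ‖Γ.fn (gz lam c a S 0 : GRing lam c a) θ‖ := by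
      linarith
    rw [h4, sub_div]
    have e : (dif fun i => rowT T (S i)) l 0 =
        rowT T (S l.succ) 0 - rowT T (S 0) 0 := rfl
    rw [e]
    refine lt_of_le_of_lt ?_ (hδle S)
    have h5 := abs_le.1 h1
    have h6 := abs_le.1 h2
    rw [abs_le]
    constructor <;> linarith [h5.1, h5.2, h6.1, h6.2]
  · have h1 := hZlw l.succ j θ
    have h2 := hZlw 0 j θ
    have h3 := lw_mul (hgoodE l) (hgoodZ 0) j θ
    rw [hmul l] at h3
    have h4 : lw (Γ.fn (gent lam c a S l : GRing lam c a)) j θ =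
        lw (Γ.fn (gz lam c a S l.succ : GRing lam c a)) j θ -
        lw (Γ.fn (gz lam c a S 0 : GRing lam c a)) j θ := by
      rw [h3]
      ring
    have e : (dif fun i => rowT T (S i)) l j.succ =
        rowT T (S l.succ) j.succ - rowT T (S 0) j.succ := rfl
    rw [h4, e]
    refine lt_of_le_of_lt ?_ (hδle S)
    have e2 : lw (Γ.fn (gz lam c a S l.succ : GRing lam c a)) j θ -
        lw (Γ.fn (gz lam c a S 0 : GRing lam c a)) j θ - 2 * Real.pi * Complex.I *
          ((rowT T (S l.succ) j.succ - rowT T (S 0) j.succ : ℝ) : ℂ) =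
        (lw (Γ.fn (gz lam c a S l.succ : GRing lam c a)) j θ -
          2 * Real.pi * Complex.I * rowT T (S l.succ) j.succ) -
        (lw (Γ.fn (gz lam c a S 0 : GRing lam c a)) j θ -
          2 * Real.pi * Complex.I * rowT T (S 0) j.succ) := by
      push_cast
      ring
    rw [e2]
    refine (norm_sub_le _ _).trans ?_
    linarith

/-- The hyperplanes `T ⊆ {1, ..., m}`, `T` with `d + 1` elements, as a map. -/
def vert (t : {s : Finset (Fin m) // s.card = d + 1}) (k : Fin (d + 1)) : Fin (m + 1) :=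
  (t.1.orderEmbOfFin t.2 k).succ

/-- The simplex with the facets in `T` and the facet with index `0`. -/
def splx (t : {s : Finset (Fin m) // s.card = d + 1}) : Fin (d + 2) → Fin (m + 1) :=
  Fin.cons 0 (vert t)

theorem vert_injective (t : {s : Finset (Fin m) // s.card = d + 1}) :
    Function.Injective (vert t) :=
  (Fin.succ_injective m).comp (t.1.orderEmbOfFin t.2).injective

theorem splx_injective (t : {s : Finset (Fin m) // s.card = d + 1}) :
    Function.Injective (splx t) := by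
  unfold splx
  rw [Fin.cons_injective_iff]
  refine ⟨?_, vert_injective t⟩
  rintro ⟨j, hj⟩
  exact Fin.succ_ne_zero _ hj

theorem det_same (t : {s : Finset (Fin m) // s.card = d + 1}) :
    (dif fun i => rowT (vert t) (splx t i)).det = (dif (row (0 : Fin (d + 2)))).det := by
  have h : (fun i => rowT (vert t) (splx t i)) = row (0 : Fin (d + 2)) := by
    funext i
    refine Fin.cases ?_ (fun i => ?_) i
    · have h1 : splx t 0 = 0 := rfl
      have h0 : rowT (vert t) (0 : Fin (m + 1)) = 0 :=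
        rowT_ne (T := vert t) (fun j => Fin.succ_ne_zero _)
      rw [h1, h0, row_same]
    · have h1 : splx t i.succ = vert t i := rfl
      rw [h1, rowT_T (vert_injective t)]
      exact (row_succAbove (d := d) 0 i).symm
  rw [h]

theorem det_other {t t' : {s : Finset (Fin m) // s.card = d + 1}} (h : t ≠ t') :
    (dif fun i => rowT (vert t) (splx t' i)).det = 0 := by
  obtain ⟨x, hx', hx⟩ : ∃ x ∈ t'.1, x ∉ t.1 := by
    by_contra hcon
    push Not at hcon
    apply h
    apply Subtype.ext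
    exact (Finset.eq_of_subset_of_card_le (fun x hx => hcon x hx) (by rw [t.2, t'.2])).symm
  have h1 : x ∈ Set.range (t'.1.orderEmbOfFin t'.2) := by
    rw [Finset.range_orderEmbOfFin]
    exact hx'
  obtain ⟨k, hk⟩ := h1
  refine Matrix.det_eq_zero_of_row_eq_zero k fun j => ?_
  show rowT (vert t) (splx t' k.succ) j - rowT (vert t) (splx t' 0) j = 0
  have h2 : splx t' 0 = 0 := rfl
  have h3 : splx t' k.succ = x.succ := by
    show (t'.1.orderEmbOfFin t'.2 k).succ = _
    rw [hk]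
  have h0 : rowT (vert t) (0 : Fin (m + 1)) = 0 :=
    rowT_ne (T := vert t) (fun j => Fin.succ_ne_zero _)
  rw [h2, h3, h0, rowT_ne]
  · simp
  · intro j hj
    apply hx
    have h4 := Fin.succ_injective _ hj
    rw [← h4]
    exact Finset.orderEmbOfFin_mem _ _ _

theorem exists_tori (σ : K →+* ℂ)
    (hdet : ∀ T : Fin (d + 1) → Fin (m + 1), Function.Injective T → (cm c T).det ≠ 0)
    (hgen : ∀ S : Fin (d + 2) → Fin (m + 1), Function.Injective S → ∀ x : Fin (d + 1) → K,
      ∃ i, ∑ j, c (S i) j * x j ≠ a (S i)) :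
    ∃ C : ℝ, 1 ≤ C ∧ ∀ lam : K, C ≤ ‖σ lam‖ →
      ∃ Γ : {s : Finset (Fin m) // s.card = d + 1} → Torus (GRing lam c a) d,
        (∀ t θ x, (Γ t).e θ (gcst lam c a x) = σ x) ∧
        (Matrix.of fun t i : {s : Finset (Fin m) // s.card = d + 1} =>
          (Γ t).reg (symb (gent lam c a (splx i)))).det ≠ 0 := by
  classical
  set D0 : ℝ := (2 * Real.pi) ^ d * (dif (row (0 : Fin (d + 2)))).det with hD0
  have hD : D0 ≠ 0 := mul_ne_zero (by have := Real.pi_pos; positivity) (det_dif_row 0)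
  have hlead : (D0 • (1 : Matrix {s : Finset (Fin m) // s.card = d + 1}
      {s : Finset (Fin m) // s.card = d + 1} ℝ)).det ≠ 0 := by
    rw [Matrix.det_smul, Matrix.det_one, mul_one]
    exact pow_ne_zero _ hD
  obtain ⟨δ, hδ, hdet'⟩ := det_ne_zero_near _ hlead
  choose Λ hΛ1 hΛ using fun t : {s : Finset (Fin m) // s.card = d + 1} =>
    exists_torus (a := a) σ hdet hgen (vert_injective t) (ε := δ / 2) (by linarith)
  set C : ℝ := ∑ t, |Λ t| + 2 with hC
  have hsum : 0 ≤ ∑ t, |Λ t| := Finset.sum_nonneg fun J _ => abs_nonneg _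
  have hΛC : ∀ t, Λ t ≤ C := by
    intro t
    have h1 := Finset.single_le_sum (f := fun t => |Λ t|) (fun t _ => abs_nonneg _)
      (Finset.mem_univ t)
    have h2 := le_abs_self (Λ t)
    have h3 : |Λ t| ≤ ∑ t, |Λ t| := h1
    linarith
  refine ⟨C, by linarith, fun lam hlam => ?_⟩
  choose Γ hΓ1 hΓ2 using fun t => hΛ t lam ((hΛC t).trans hlam)
  refine ⟨Γ, hΓ1, ?_⟩
  have hs : -Real.log ‖σ lam‖ ≠ 0 := by
    have : 0 < Real.log ‖σ lam‖ := Real.log_pos (by linarith)
    linarith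
  set s : ℝ := -Real.log ‖σ lam‖ with hsdef
  have h1 : (Matrix.of fun t i : {s : Finset (Fin m) // s.card = d + 1} =>
      (Γ t).reg (symb (gent lam c a (splx i))) / s).det ≠ 0 := by
    refine hdet' _ fun t i => ?_
    rw [Matrix.of_apply, Matrix.smul_apply, Matrix.one_apply, smul_eq_mul]
    refine lt_of_le_of_lt ?_ (show δ / 2 < δ by linarith)
    have h2 := hΓ2 t (splx i) (splx_injective i)
    by_cases hti : t = i
    · subst hti
      rw [det_same] at h2
      rwa [if_pos rfl, mul_one]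
    · rw [det_other hti, mul_zero] at h2
      rwa [if_neg hti, mul_zero]
  have h2 : (Matrix.of fun t i : {s : Finset (Fin m) // s.card = d + 1} =>
      (Γ t).reg (symb (gent lam c a (splx i)))) =
      s • (Matrix.of fun t i : {s : Finset (Fin m) // s.card = d + 1} =>
        (Γ t).reg (symb (gent lam c a (splx i))) / s) := by
    ext t i
    rw [Matrix.smul_apply, Matrix.of_apply, Matrix.of_apply, smul_eq_mul]
    field_simp
  rw [h2, Matrix.det_smul]
  exact mul_ne_zero (pow_ne_zero _ hs) h1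

end main

end Pool.Agent.TH826.GA
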