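import Pool.Agent.TH826.SX.Ring
set_option autoImplicit false

/-!
Arrangements of hyperplanes `L_e = ∑_j c_{e,j} x_j - a_e` with unit maximal minors, the
hypersurfaces `λ ∏_e L_e = 1`, and the symbols of the simplices of the arrangement.
-/

namespace Pool.Agent.TH826.GA

open scoped WithZero

open Pool.Agent.TH826.MK (KQ symb Unramified unitPart)

open Pool.Agent.TH826.SX (mem_unitPart_of_sum_lt)

section lin

variable {R : Type*} [CommRing R] {d m : ℕ} (c : Fin (m + 1) → Fin (d + 1) → R)

/-- the linear parts of the forms with the indices `T` -/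
def cm (T : Fin (d + 1) → Fin (m + 1)) : Matrix (Fin (d + 1)) (Fin (d + 1)) R :=
  Matrix.of fun i j => c (T i) j

/-- the coefficients of the linear relation between the linear parts of `d + 2` forms: the maximal
minors with signs -/
def gam (S : Fin (d + 2) → Fin (m + 1)) (i : Fin (d + 2)) : R :=
  (-1) ^ (i : ℕ) * (cm c fun p => S (i.succAbove p)).det

theorem sum_gam (S : Fin (d + 2) → Fin (m + 1)) (j : Fin (d + 1)) :
    ∑ i, gam c S i * c (S i) j = 0 := by
  set A : Matrix (Fin (d + 2)) (Fin (d + 2)) R :=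
    Matrix.of fun i => (Fin.cons (c (S i) j) (c (S i)) : Fin (d + 2) → R) with hA
  have h0 : A.det = 0 := by
    refine Matrix.det_zero_of_column_eq (i := 0) (j := j.succ) (Fin.succ_ne_zero j).symm ?_
    intro i
    simp [hA]
  rw [Matrix.det_succ_column_zero] at h0
  rw [← h0]
  refine Finset.sum_congr rfl fun i _ => ?_
  have e : A.submatrix i.succAbove Fin.succ = cm c fun p => S (i.succAbove p) := by
    ext p q
    simp [hA, cm]
  rw [e]
  unfold gam
  simp only [hA, Matrix.of_apply, Fin.cons_zero]
  ring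

end lin

section Ring

variable {K : Type*} [Field K] {d m : ℕ}

/-- The affine form `∑_j c_{e,j} x_j - a_e`. -/
noncomputable def lf (c : Fin (m + 1) → Fin (d + 1) → K) (a : Fin (m + 1) → K) (e : Fin (m + 1)) :
    MvPolynomial (Fin (d + 1)) K :=
  ∑ j, MvPolynomial.C (c e j) * MvPolynomial.X j - MvPolynomial.C (a e)

/-- The equation `λ ∏_e L_e - 1`. -/
noncomputable def geqn (lam : K) (c : Fin (m + 1) → Fin (d + 1) → K) (a : Fin (m + 1) → K) :
    MvPolynomial (Fin (d + 1)) K :=
  MvPolynomial.C lam * ∏ e, lf c a e - 1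

/-- The coordinate ring of the affine hypersurface `λ ∏_e L_e = 1`. -/
def GRing (lam : K) (c : Fin (m + 1) → Fin (d + 1) → K) (a : Fin (m + 1) → K) : Type _ :=
  MvPolynomial (Fin (d + 1)) K ⧸ Ideal.span {geqn lam c a}

variable (lam : K) (c : Fin (m + 1) → Fin (d + 1) → K) (a : Fin (m + 1) → K)

noncomputable instance : CommRing (GRing lam c a) :=
  Ideal.Quotient.commRing (Ideal.span {geqn lam c a})

/-- The polynomials as functions on the hypersurface. -/
noncomputable def gpol : MvPolynomial (Fin (d + 1)) K →+* GRing lam c a :=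
  Ideal.Quotient.mk (Ideal.span {geqn lam c a})

/-- The constants as functions on the hypersurface. -/
noncomputable def gcst : K →+* GRing lam c a := (gpol lam c a).comp MvPolynomial.C

theorem gpol_geqn : gpol lam c a (geqn lam c a) = 0 :=
  Ideal.Quotient.eq_zero_iff_mem.2 (Ideal.subset_span rfl)

theorem prod_gl : gcst lam c a lam * ∏ e, gpol lam c a (lf c a e) = 1 := by
  have h := gpol_geqn lam c a
  unfold geqn at h
  rw [map_sub, map_mul, map_one, map_prod, sub_eq_zero] at h
  rw [← h]
  rfl

theorem isUnit_gl (e : Fin (m + 1)) : IsUnit (gpol lam c a (lf c a e)) := by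
  refine isUnit_of_dvd_one ?_
  rw [← prod_gl lam c a]
  exact Dvd.dvd.mul_left (Finset.dvd_prod_of_mem (fun e => gpol lam c a (lf c a e))
    (Finset.mem_univ e)) _

/-- The unit `L_e` of the coordinate ring. -/
noncomputable def gu (e : Fin (m + 1)) : (GRing lam c a)ˣ := (isUnit_gl lam c a e).unit

theorem coe_gu (e : Fin (m + 1)) : (gu lam c a e : GRing lam c a) = gpol lam c a (lf c a e) := rfl

/-- The element `x` as a unit, if it is not zero. -/
noncomputable def ku (x : K) : Kˣ :=
  open Classical in if h : x = 0 then 1 else Units.mk0 x h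

theorem coe_ku {x : K} (h : x ≠ 0) : (ku x : K) = x := by
  unfold ku
  rw [dif_neg h, Units.val_mk0]

/-- The unit `γ_i L_{S i}`, where `∑_i γ_i L_{S i}` is constant. -/
noncomputable def gz (S : Fin (d + 2) → Fin (m + 1)) (i : Fin (d + 2)) : (GRing lam c a)ˣ :=
  Units.map (gcst lam c a : K →* GRing lam c a) (ku (gam c S i)) * gu lam c a (S i)

/-- The entries `γ_k L_{S k} / (γ_0 L_{S 0})`, `k = 1, ..., d + 1`, of the symbol of the simplex
with the facets `L_{S 0}, ..., L_{S (d + 1)}`. -/
noncomputable def gent (S : Fin (d + 2) → Fin (m + 1)) (k : Fin (d + 1)) : (GRing lam c a)ˣ :=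
  gz lam c a S k.succ / gz lam c a S 0

end Ring

section Unram

variable {K : Type*} [Field K] {d m : ℕ} {lam : K} {c : Fin (m + 1) → Fin (d + 1) → K}
  {a : Fin (m + 1) → K}

/-- The hypotheses on the arrangement: integral coefficients, unit maximal minors. -/
structure Unimod (c : Fin (m + 1) → Fin (d + 1) → K) (a : Fin (m + 1) → K) : Prop where
  int_c : ∀ e j, IsIntegral ℤ (c e j)
  int_a : ∀ e, IsIntegral ℤ (a e)
  det_ne : ∀ T : Fin (d + 1) → Fin (m + 1), Function.Injective T → (cm c T).det ≠ 0
  det_inv : ∀ T : Fin (d + 1) → Fin (m + 1), Function.Injective T →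
    IsIntegral ℤ ((cm c T).det)⁻¹

theorem Unimod.det_int (hA : Unimod c a) (T : Fin (d + 1) → Fin (m + 1)) :
    IsIntegral ℤ (cm c T).det :=
  IsIntegral.det fun i j => hA.int_c _ _

theorem injective_face {S : Fin (d + 2) → Fin (m + 1)} (hS : Function.Injective S)
    (i : Fin (d + 2)) : Function.Injective fun p => S (i.succAbove p) :=
  hS.comp Fin.succAbove_right_injective

theorem Unimod.gam_ne (hA : Unimod c a) {S : Fin (d + 2) → Fin (m + 1)}
    (hS : Function.Injective S) (i : Fin (d + 2)) : gam c S i ≠ 0 := by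
  unfold gam
  exact mul_ne_zero (pow_ne_zero _ (by norm_num)) (hA.det_ne _ (injective_face hS i))

theorem Unimod.gam_int (hA : Unimod c a) (S : Fin (d + 2) → Fin (m + 1)) (i : Fin (d + 2)) :
    IsIntegral ℤ (gam c S i) := by
  unfold gam
  exact (isIntegral_one.neg.pow _).mul (hA.det_int _)

theorem Unimod.gam_inv (hA : Unimod c a) {S : Fin (d + 2) → Fin (m + 1)}
    (hS : Function.Injective S) (i : Fin (d + 2)) : IsIntegral ℤ (gam c S i)⁻¹ := by
  unfold gam
  rw [mul_inv, ← inv_pow, inv_neg_one]
  exact (isIntegral_one.neg.pow _).mul (hA.det_inv _ (injective_face hS i))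

variable {L : Type*} [Field L] (f : GRing lam c a →+* L)

/-- the composite map from the coefficient field -/
noncomputable def cL : K →+* L := f.comp (gcst lam c a)

/-- the image of `x_j` -/
noncomputable def xL (j : Fin (d + 1)) : L := f (gpol lam c a (MvPolynomial.X j))

/-- the image of `L_e` -/
noncomputable def lL (e : Fin (m + 1)) : L := ∑ j, cL f (c e j) * xL f j - cL f (a e)

theorem map_gu (e : Fin (m + 1)) : f (gu lam c a e : GRing lam c a) = lL f e := by
  rw [coe_gu]
  unfold lf lL cL xL gcst
  rw [map_sub, map_sub, map_sum, map_sum]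
  simp only [map_mul]
  rfl

theorem prod_lL : cL f lam * ∏ e, lL f e = 1 := by
  have h := congrArg f (prod_gl lam c a)
  rw [map_mul, map_one, map_prod] at h
  rw [← h]
  congr 1
  refine Finset.prod_congr rfl fun e _ => ?_
  rw [← map_gu, coe_gu]

theorem map_gz (hA : Unimod c a) {S : Fin (d + 2) → Fin (m + 1)} (hS : Function.Injective S)
    (i : Fin (d + 2)) : f (gz lam c a S i : GRing lam c a) = cL f (gam c S i) * lL f (S i) := by
  unfold gz
  rw [Units.val_mul, map_mul, map_gu]
  congr 1
  rw [Units.coe_map]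
  show f (gcst lam c a (ku (gam c S i) : K)) = _
  rw [coe_ku (hA.gam_ne hS i)]
  rfl

theorem sum_gz (hA : Unimod c a) {S : Fin (d + 2) → Fin (m + 1)} :
    ∑ i, cL f (gam c S i) * lL f (S i) = - ∑ i, cL f (gam c S i * a (S i)) := by
  have h1 : ∀ i, cL f (gam c S i) * lL f (S i) =
      ∑ j, cL f (gam c S i * c (S i) j) * xL f j - cL f (gam c S i * a (S i)) := by
    intro i
    unfold lL
    rw [mul_sub, Finset.mul_sum]
    simp only [map_mul, mul_assoc]
  simp only [h1, Finset.sum_sub_distrib]
  rw [Finset.sum_comm]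
  have h2 : ∀ j, ∑ i, cL f (gam c S i * c (S i) j) * xL f j = 0 := by
    intro j
    rw [← Finset.sum_mul, ← map_sum, sum_gam, map_zero, zero_mul]
  simp only [h2, Finset.sum_const_zero, zero_sub]

/-- The coordinates are integral combinations of `d + 1` of the forms. -/
theorem xL_eq (hA : Unimod c a) {T : Fin (d + 1) → Fin (m + 1)} (hT : Function.Injective T)
    (j : Fin (d + 1)) : xL f j =
      ∑ i, cL f (((cm c T).det)⁻¹ * (cm c T).adjugate j i) * (lL f (T i) + cL f (a (T i))) := by
  have h1 : ∀ i, lL f (T i) + cL f (a (T i)) = ∑ l, cL f (cm c T i l) * xL f l := by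
    intro i
    unfold lL cm
    simp
  simp only [h1, Finset.mul_sum]
  rw [Finset.sum_comm]
  have h2 : ∀ l, ∑ i, cL f (((cm c T).det)⁻¹ * (cm c T).adjugate j i) *
      (cL f (cm c T i l) * xL f l) = (if j = l then 1 else 0) * xL f l := by
    intro l
    simp only [← mul_assoc, ← Finset.sum_mul, ← map_mul, ← map_sum]
    congr 1
    have h3 : ∑ i, ((cm c T).det)⁻¹ * (cm c T).adjugate j i * cm c T i l =
        if j = l then 1 else 0 := by
      simp only [mul_assoc, ← Finset.mul_sum]
      have h4 := congrFun (congrFun (Matrix.adjugate_mul (cm c T)) j) l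
      rw [Matrix.mul_apply] at h4
      rw [h4, Matrix.smul_apply, Matrix.one_apply, smul_eq_mul, ← mul_assoc,
        inv_mul_cancel₀ (hA.det_ne T hT), one_mul]
    rw [h3]
    split_ifs <;> simp
  simp only [h2]
  simp

theorem isIntegral_adj (hA : Unimod c a) (T : Fin (d + 1) → Fin (m + 1)) (i j : Fin (d + 1)) :
    IsIntegral ℤ ((cm c T).adjugate i j) := by
  rw [Matrix.adjugate_apply]
  refine IsIntegral.det fun p q => ?_
  rw [Matrix.updateRow_apply]
  split_ifs
  · rw [Pi.single_apply]
    split_ifs
    · exact isIntegral_one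
    · exact isIntegral_zero
  · exact hA.int_c _ _

/-- The symbols of the simplices are unramified at all discrete valuations. -/
theorem symb_mem_unitPart (hlam : IsIntegral ℤ lam) (hA : Unimod c a)
    (v : Valuation L ℤᵐ⁰) {S : Fin (d + 2) → Fin (m + 1)} (hS : Function.Injective S) :
    symb (fun l => Units.map (f : GRing lam c a →* L) (gent lam c a S l)) ∈
      unitPart v (d + 1) := by
  have hc : ∀ x : K, IsIntegral ℤ x → v (cL f x) ≤ 1 := fun x hx =>
    Pool.Agent.TH826.MK.val_le_one_of_integral v (map_isIntegral_int _ hx)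
  set z : Fin (d + 2) → Lˣ := fun k => Units.map (f : GRing lam c a →* L) (gz lam c a S k) with hz
  have hzv : ∀ k, (z k : L) = cL f (gam c S k) * lL f (S k) := fun k => map_gz f hA hS k
  have hgam : ∀ k, v (cL f (gam c S k)) = 1 := by
    intro k
    refine le_antisymm (hc _ (hA.gam_int S k)) ?_
    have h1 := hc _ (hA.gam_inv hS k)
    rw [map_inv₀, map_inv₀] at h1
    have h0 : cL f (gam c S k) ≠ 0 := (map_ne_zero _).2 (hA.gam_ne hS k)
    rwa [inv_le_one₀ (by rw [Valuation.pos_iff]; exact h0)] at h1
  have hvz : ∀ k, v (z k : L) = v (lL f (S k)) := by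
    intro k
    rw [hzv, map_mul, hgam, one_mul]
  have hent : (fun l => Units.map (f : GRing lam c a →* L) (gent lam c a S l)) =
      fun l : Fin (d + 1) => z l.succ / z 0 := by
    funext l
    exact map_div (Units.map (f : GRing lam c a →* L)) _ _
  rw [hent]
  by_cases hB : ∃ k, 1 < v (z k : L)
  · obtain ⟨k, hk⟩ := hB
    obtain ⟨l, -, hl⟩ := Finset.exists_max_image Finset.univ (fun k => v (z k : L))
      ⟨k, Finset.mem_univ k⟩
    have h2 : 1 < v (z l : L) := hk.trans_le (hl k (Finset.mem_univ k))
    refine mem_unitPart_of_sum_lt v z l (fun k => hl k (Finset.mem_univ k)) ?_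
    refine lt_of_le_of_lt ?_ h2
    simp only [hzv]
    rw [sum_gz f hA, Valuation.map_neg]
    exact Valuation.map_sum_le v fun k _ => hc _ ((hA.gam_int S k).mul (hA.int_a _))
  · push Not at hB
    have hSk : ∀ k, v (lL f (S k)) ≤ 1 := fun k => by
      rw [← hvz]
      exact hB k
    -- the coordinates are integral
    have hT : Function.Injective fun p : Fin (d + 1) => S ((0 : Fin (d + 2)).succAbove p) :=
      injective_face hS 0
    have hx : ∀ j, v (xL f j) ≤ 1 := by
      intro j
      rw [xL_eq f hA hT j]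
      refine Valuation.map_sum_le v fun i _ => ?_
      rw [map_mul]
      refine mul_le_one' (hc _ ((hA.det_inv _ hT).mul (isIntegral_adj hA _ _ _))) ?_
      exact (v.map_add _ _).trans (max_le (hSk _) (hc _ (hA.int_a _)))
    have hle : ∀ e, v (lL f e) ≤ 1 := by
      intro e
      refine (v.map_sub _ _).trans (max_le ?_ (hc _ (hA.int_a _)))
      refine Valuation.map_sum_le v fun j _ => ?_
      rw [map_mul]
      exact mul_le_one' (hc _ (hA.int_c _ _)) (hx j)
    have hone := congrArg v (prod_lL f)
    rw [map_mul, map_one, map_prod] at hone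
    have hB : ∀ e, v (lL f e) = 1 := by
      intro e
      refine le_antisymm (hle e) ?_
      rw [← hone, ← Finset.mul_prod_erase _ _ (Finset.mem_univ e)]
      have h1 : ∏ x ∈ Finset.univ.erase e, v (lL f x) ≤ 1 :=
        Finset.prod_le_one' fun j _ => hle j
      calc v (cL f lam) * (v (lL f e) * ∏ x ∈ Finset.univ.erase e, v (lL f x))
          ≤ 1 * (v (lL f e) * 1) := mul_le_mul' (hc _ hlam) (mul_le_mul' le_rfl h1)
        _ = v (lL f e) := by rw [one_mul, mul_one]
    refine Submodule.subset_span ⟨_, fun l => ?_, rfl⟩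
    rw [Units.val_div_eq_div_val, map_div₀, hvz, hvz, hB, hB, div_one]

theorem symb_mem_unramified (hlam : IsIntegral ℤ lam) (hA : Unimod c a)
    {S : Fin (d + 2) → Fin (m + 1)} (hS : Function.Injective S) :
    KQ.map (d + 1) f (symb (gent lam c a S)) ∈ Unramified L (d + 1) := by
  rw [KQ.map_symb]
  unfold Unramified
  simp only [Submodule.mem_iInf]
  intro v _
  exact symb_mem_unitPart f hlam hA v hS

end Unram

end Pool.Agent.TH826.GA
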