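import Pool.Agent.TH826.GA.Alg
set_option autoImplicit false

/-!
The hypersurfaces `λ ∏_e L_e = 1` are irreducible.
-/

namespace Pool.Agent.TH826.GA

open Pool.Agent.TH826.MH (irr_sub_one)

section Dom

variable {K : Type*} [Field K] {d m : ℕ} {c : Fin (m + 1) → Fin (d + 1) → K}
  {a : Fin (m + 1) → K} (T : Fin (d + 1) → Fin (m + 1))

/-- the coordinate change -/
noncomputable def fwd (c : Fin (m + 1) → Fin (d + 1) → K) (a : Fin (m + 1) → K)
    (T : Fin (d + 1) → Fin (m + 1)) :
    MvPolynomial (Fin (d + 1)) K →ₐ[K] MvPolynomial (Fin (d + 1)) K :=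
  MvPolynomial.aeval fun j => ∑ i, MvPolynomial.C ((cm c T)⁻¹ j i) *
    (MvPolynomial.X i + MvPolynomial.C (a (T i)))

/-- the inverse coordinate change -/
noncomputable def bwd (c : Fin (m + 1) → Fin (d + 1) → K) (a : Fin (m + 1) → K)
    (T : Fin (d + 1) → Fin (m + 1)) :
    MvPolynomial (Fin (d + 1)) K →ₐ[K] MvPolynomial (Fin (d + 1)) K :=
  MvPolynomial.aeval fun i => lf c a (T i)

/-- the coefficients in the new coordinates -/
noncomputable def al (c : Fin (m + 1) → Fin (d + 1) → K) (T : Fin (d + 1) → Fin (m + 1))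
    (e : Fin (m + 1)) (l : Fin (d + 1)) : K := ∑ j, c e j * (cm c T)⁻¹ j l

/-- the constants in the new coordinates -/
noncomputable def be (c : Fin (m + 1) → Fin (d + 1) → K) (a : Fin (m + 1) → K)
    (T : Fin (d + 1) → Fin (m + 1)) (e : Fin (m + 1)) : K :=
  ∑ l, al c T e l * a (T l) - a e

theorem fwd_lf (e : Fin (m + 1)) : fwd c a T (lf c a e) =
    ∑ l, MvPolynomial.C (al c T e l) * MvPolynomial.X l + MvPolynomial.C (be c a T e) := by
  have hC : ∀ x : K, fwd c a T (MvPolynomial.C x) = MvPolynomial.C x := fun x =>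
    MvPolynomial.algHom_C _ x
  have hX : ∀ j, fwd c a T (MvPolynomial.X j) = ∑ i, MvPolynomial.C ((cm c T)⁻¹ j i) *
    (MvPolynomial.X i + MvPolynomial.C (a (T i))) := fun j => MvPolynomial.aeval_X _ _
  unfold lf
  rw [map_sub, map_sum, hC]
  simp only [map_mul, hC, hX]
  unfold be al
  simp only [map_sub, map_sum, map_mul, mul_add, Finset.sum_add_distrib, Finset.mul_sum,
    Finset.sum_mul]
  rw [Finset.sum_comm, Finset.sum_comm (f := fun j i => MvPolynomial.C (c e j) *
    (MvPolynomial.C ((cm c T)⁻¹ j i) * MvPolynomial.C (a (T i))))]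
  simp only [mul_assoc]
  ring

theorem al_T (hT : (cm c T).det ≠ 0) (i l : Fin (d + 1)) :
    al c T (T i) l = if i = l then 1 else 0 := by
  have h := congrFun (congrFun (Matrix.mul_nonsing_inv (cm c T) (isUnit_iff_ne_zero.2 hT)) i) l
  rw [Matrix.mul_apply, Matrix.one_apply] at h
  exact h

theorem be_T (hT : (cm c T).det ≠ 0) (i : Fin (d + 1)) : be c a T (T i) = 0 := by
  unfold be
  simp only [al_T T hT]
  simp

theorem al_ne (hdet : ∀ T : Fin (d + 1) → Fin (m + 1), Function.Injective T → (cm c T).det ≠ 0)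
    (hT : Function.Injective T) {e : Fin (m + 1)} (he : ∀ i, T i ≠ e) (l : Fin (d + 1)) :
    al c T e l ≠ 0 := by
  intro h0
  have hinj : Function.Injective (Function.update T l e) := by
    intro p q hpq
    by_cases hp : p = l
    · by_cases hq : q = l
      · rw [hp, hq]
      · rw [hp, Function.update_self, Function.update_of_ne hq] at hpq
        exact absurd hpq.symm (he q)
    · by_cases hq : q = l
      · rw [hq, Function.update_self, Function.update_of_ne hp] at hpq
        exact absurd hpq (he p)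
      · rw [Function.update_of_ne hp, Function.update_of_ne hq] at hpq
        exact hT hpq
  refine hdet _ hinj ?_
  have h1 : cm c (Function.update T l e) =
      (cm c T).updateRow l (∑ k, al c T e k • (cm c T) k) := by
    have h2 : ∑ k, al c T e k • (cm c T) k = c e := by
      funext j
      rw [Finset.sum_apply]
      simp only [Pi.smul_apply, smul_eq_mul]
      unfold al
      simp only [Finset.sum_mul]
      rw [Finset.sum_comm]
      have h3 : ∀ p, ∑ k, c e p * (cm c T)⁻¹ p k * cm c T k j = c e p * (if p = j then 1 else 0) := by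
        intro p
        simp only [mul_assoc, ← Finset.mul_sum]
        have h := congrFun (congrFun (Matrix.nonsing_inv_mul (cm c T)
          (isUnit_iff_ne_zero.2 (hdet T hT))) p) j
        rw [Matrix.mul_apply, Matrix.one_apply] at h
        rw [h]
      simp only [h3]
      simp
    rw [h2]
    ext i j
    rw [Matrix.updateRow_apply]
    unfold cm
    rw [Matrix.of_apply]
    by_cases hi : i = l
    · rw [if_pos hi, hi, Function.update_self]
    · rw [if_neg hi, Function.update_of_ne hi]
      rfl
  rw [h1, Matrix.det_updateRow_sum, h0, zero_smul]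

/-- the coordinate change as an isomorphism -/
noncomputable def chg (c : Fin (m + 1) → Fin (d + 1) → K) (a : Fin (m + 1) → K)
    (T : Fin (d + 1) → Fin (m + 1)) (hT : (cm c T).det ≠ 0) :
    MvPolynomial (Fin (d + 1)) K ≃ₐ[K] MvPolynomial (Fin (d + 1)) K :=
  AlgEquiv.ofAlgHom (fwd c a T) (bwd c a T)
    (by
      refine MvPolynomial.algHom_ext fun i => ?_
      rw [AlgHom.comp_apply]
      have h1 : bwd c a T (MvPolynomial.X i) = lf c a (T i) := MvPolynomial.aeval_X _ _
      rw [h1, fwd_lf, be_T T hT]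
      simp only [al_T T hT]
      simp)
    (by
      refine MvPolynomial.algHom_ext fun j => ?_
      rw [AlgHom.comp_apply]
      have hX : fwd c a T (MvPolynomial.X j) = ∑ i, MvPolynomial.C ((cm c T)⁻¹ j i) *
        (MvPolynomial.X i + MvPolynomial.C (a (T i))) := MvPolynomial.aeval_X _ _
      have hC : ∀ x : K, bwd c a T (MvPolynomial.C x) = MvPolynomial.C x := fun x =>
        MvPolynomial.algHom_C _ x
      have h1 : ∀ i, bwd c a T (MvPolynomial.X i) = lf c a (T i) := fun i =>
        MvPolynomial.aeval_X _ _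
      rw [hX, map_sum]
      simp only [map_mul, map_add, hC, h1]
      unfold lf
      simp only [sub_add_cancel, Finset.mul_sum]
      rw [Finset.sum_comm]
      have h2 : ∀ l, ∑ i, MvPolynomial.C ((cm c T)⁻¹ j i) *
          (MvPolynomial.C (c (T i) l) * MvPolynomial.X l) =
          MvPolynomial.C (if j = l then 1 else 0) * (MvPolynomial.X l :
            MvPolynomial (Fin (d + 1)) K) := by
        intro l
        simp only [← mul_assoc, ← Finset.sum_mul, ← map_mul, ← map_sum]
        have h := congrFun (congrFun (Matrix.nonsing_inv_mul (cm c T)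
          (isUnit_iff_ne_zero.2 hT)) j) l
        rw [Matrix.mul_apply, Matrix.one_apply] at h
        congr 2
      simp only [h2]
      rw [Finset.sum_eq_single j]
      · simp
      · intro l _ hl
        rw [if_neg (Ne.symm hl)]
        simp
      · intro h
        exact absurd (Finset.mem_univ j) h)

theorem chg_lf (hT : (cm c T).det ≠ 0) (e : Fin (m + 1)) : chg c a T hT (lf c a e) =
    ∑ l, MvPolynomial.C (al c T e l) * MvPolynomial.X l + MvPolynomial.C (be c a T e) :=
  fwd_lf T e

end Dom

section Irr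

variable {K : Type*} [Field K] {d m : ℕ} {c : Fin (m + 1) → Fin (d + 1 + 1) → K}
  {a : Fin (m + 1) → K}

/-- the part of the form in the new coordinates without the first coordinate -/
noncomputable def rest (c : Fin (m + 1) → Fin (d + 1 + 1) → K) (a : Fin (m + 1) → K)
    (T : Fin (d + 1 + 1) → Fin (m + 1)) (e : Fin (m + 1)) : MvPolynomial (Fin (d + 1)) K :=
  ∑ l, MvPolynomial.C (al c T e l.succ) * MvPolynomial.X l + MvPolynomial.C (be c a T e)

theorem finSucc_lf (T : Fin (d + 1 + 1) → Fin (m + 1)) (hT : (cm c T).det ≠ 0)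
    (e : Fin (m + 1)) :
    MvPolynomial.finSuccEquiv K (d + 1) (chg c a T hT (lf c a e)) =
      Polynomial.C (MvPolynomial.C (al c T e 0)) * Polynomial.X +
        Polynomial.C (rest c a T e) := by
  have hC : ∀ x : K, MvPolynomial.finSuccEquiv K (d + 1) (MvPolynomial.C x) =
      Polynomial.C (MvPolynomial.C x) := by
    intro x
    rw [MvPolynomial.finSuccEquiv_apply]
    simp
  rw [chg_lf, map_add, map_sum, hC, Fin.sum_univ_succ]
  simp only [map_mul, hC, MvPolynomial.finSuccEquiv_X_zero, MvPolynomial.finSuccEquiv_X_succ]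
  unfold rest
  simp only [map_add, map_sum, map_mul]
  ring

theorem simple_zero (κ : K) (hκ : κ ≠ 0) :
    ∃ y : Fin (d + 1) → K, MvPolynomial.eval y (MvPolynomial.C κ *
      ∏ i : Fin (d + 1), MvPolynomial.X i) = 0 ∧
      (MvPolynomial.C κ * ∏ i : Fin (d + 1), MvPolynomial.X i :
        MvPolynomial (Fin (d + 1)) K) ≠ 0 ∧
      ∀ g h, MvPolynomial.eval y g = 0 → MvPolynomial.eval y h = 0 →
        (MvPolynomial.C κ * ∏ i : Fin (d + 1), MvPolynomial.X i :
          MvPolynomial (Fin (d + 1)) K) ≠ g * h := by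
  set y : Fin (d + 1) → K := Fin.cons 0 fun _ => 1 with hy
  have hsplit : (MvPolynomial.C κ * ∏ i : Fin (d + 1), MvPolynomial.X i :
      MvPolynomial (Fin (d + 1)) K) = MvPolynomial.X 0 *
        (MvPolynomial.C κ * ∏ i : Fin d, MvPolynomial.X i.succ) := by
    rw [Fin.prod_univ_succ]
    ring
  have hq'y : MvPolynomial.eval y (MvPolynomial.C κ * ∏ i : Fin d, MvPolynomial.X i.succ) ≠ 0 := by
    simp only [map_mul, map_prod, MvPolynomial.eval_C, MvPolynomial.eval_X, hy, Fin.cons_succ,
      Finset.prod_const_one, mul_one]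
    exact hκ
  rw [hsplit]
  refine ⟨y, ?_, ?_, ?_⟩
  · rw [map_mul, MvPolynomial.eval_X, hy, Fin.cons_zero, zero_mul]
  · refine mul_ne_zero (MvPolynomial.X_ne_zero _) ?_
    intro e
    rw [e, map_zero] at hq'y
    exact hq'y rfl
  · intro g h hg hh e
    have h2 := congrArg (fun p => MvPolynomial.eval y (MvPolynomial.pderiv 0 p)) e
    simp only [Derivation.leibniz, smul_eq_mul, map_add, map_mul, hg, hh, zero_mul,
      MvPolynomial.pderiv_X_self, MvPolynomial.eval_X, add_zero] at h2
    rw [hy, Fin.cons_zero, zero_mul, zero_add, ← hy] at h2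
    apply hq'y
    rw [map_mul]
    simpa using h2

theorem irreducible_geqn
    (hdet : ∀ T : Fin (d + 1 + 1) → Fin (m + 1), Function.Injective T → (cm c T).det ≠ 0)
    (hm : d + 1 ≤ m) {lam : K} (hlam : lam ≠ 0) : Irreducible (geqn lam c a) := by
  classical
  set T : Fin (d + 1 + 1) → Fin (m + 1) := Fin.castLE (by omega) with hT
  have hTi : Function.Injective T := Fin.castLE_injective _
  have hTd := hdet T hTi
  rw [← MulEquiv.irreducible_iff (chg c a T hTd),
    ← MulEquiv.irreducible_iff (MvPolynomial.finSuccEquiv K (d + 1))]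
  have hC : ∀ x : K, MvPolynomial.finSuccEquiv K (d + 1) (MvPolynomial.C x) =
      Polynomial.C (MvPolynomial.C x) := by
    intro x
    rw [MvPolynomial.finSuccEquiv_apply]
    simp
  have hC2 : ∀ x : K, chg c a T hTd (MvPolynomial.C x) = MvPolynomial.C x := fun x =>
    (chg c a T hTd).commutes x
  -- the forms without the first coordinate
  set Q : Finset (Fin (m + 1)) := Finset.univ.image fun i : Fin (d + 1) => T i.succ with hQ
  have hQ1 : ∀ i : Fin (d + 1), al c T (T i.succ) 0 = 0 := by
    intro i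
    rw [al_T T hTd, if_neg (Fin.succ_ne_zero i)]
  have hQ2 : ∀ e, e ∉ Q → al c T e 0 ≠ 0 := by
    intro e he
    by_cases h : ∃ i, T i = e
    · obtain ⟨i, rfl⟩ := h
      rcases Fin.eq_zero_or_eq_succ i with hi | ⟨j, hj⟩
      · rw [al_T T hTd, if_pos hi]
        exact one_ne_zero
      · exfalso
        apply he
        rw [hj]
        exact Finset.mem_image_of_mem _ (Finset.mem_univ j)
    · push Not at h
      exact al_ne T hdet hTi h 0
  have hprodQ : ∏ e ∈ Q, (Polynomial.C (MvPolynomial.C (al c T e 0)) * Polynomial.X +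
      Polynomial.C (rest c a T e)) = Polynomial.C (∏ i : Fin (d + 1), MvPolynomial.X i) := by
    rw [hQ, Finset.prod_image (by
      intro i _ j _ h
      exact Fin.succ_injective _ (hTi h)), map_prod]
    refine Finset.prod_congr rfl fun i _ => ?_
    rw [hQ1]
    have h1 : rest c a T (T i.succ) = MvPolynomial.X i := by
      unfold rest
      rw [be_T T hTd]
      simp only [al_T T hTd, Fin.succ_inj]
      rw [Finset.sum_eq_single i]
      · simp
      · intro l _ hl
        rw [if_neg (Ne.symm hl)]
        simp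
      · intro h
        exact absurd (Finset.mem_univ i) h
    rw [h1]
    simp
  have hprodP : ∏ e ∈ Qᶜ, (Polynomial.C (MvPolynomial.C (al c T e 0)) * Polynomial.X +
      Polynomial.C (rest c a T e)) = Polynomial.C (MvPolynomial.C (∏ e ∈ Qᶜ, al c T e 0)) *
        ∏ e ∈ Qᶜ, (Polynomial.X + Polynomial.C (MvPolynomial.C (al c T e 0)⁻¹ *
          rest c a T e)) := by
    rw [map_prod, map_prod, ← Finset.prod_mul_distrib]
    refine Finset.prod_congr rfl fun e he => ?_
    have h1 := hQ2 e (Finset.mem_compl.1 he)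
    rw [mul_add, ← Polynomial.C_mul, ← mul_assoc, ← MvPolynomial.C_mul, mul_inv_cancel₀ h1,
      MvPolynomial.C_1, one_mul]
  set κ : K := lam * ∏ e ∈ Qᶜ, al c T e 0 with hκ
  have hκ0 : κ ≠ 0 := mul_ne_zero hlam
    (Finset.prod_ne_zero_iff.2 fun e he => hQ2 e (Finset.mem_compl.1 he))
  have hmain : MvPolynomial.finSuccEquiv K (d + 1) (chg c a T hTd (geqn lam c a)) =
      Polynomial.C (MvPolynomial.C κ * ∏ i : Fin (d + 1), MvPolynomial.X i) *
        (∏ e ∈ Qᶜ, (Polynomial.X + Polynomial.C (MvPolynomial.C (al c T e 0)⁻¹ *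
          rest c a T e))) - 1 := by
    unfold geqn
    rw [map_sub, map_mul, map_one, map_prod, hC2, map_sub, map_mul, map_one, map_prod, hC]
    simp only [finSucc_lf]
    rw [← Finset.prod_mul_prod_compl Q, hprodQ, hprodP, hκ]
    simp only [Polynomial.C_mul, MvPolynomial.C_mul]
    ring
  have hmain' : (MvPolynomial.finSuccEquiv K (d + 1)) ((chg c a T hTd) (geqn lam c a)) =
    _ := hmain
  rw [hmain']
  obtain ⟨y, h1, h2, h3⟩ := simple_zero (d := d) κ hκ0
  have hmon : ∀ e ∈ Qᶜ, (Polynomial.X + Polynomial.C (MvPolynomial.C (al c T e 0)⁻¹ *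
          rest c a T e) : Polynomial (MvPolynomial (Fin (d + 1)) K)).Monic :=
    fun e _ => Polynomial.monic_X_add_C _
  refine irr_sub_one (MvPolynomial.eval y) _ _ (Polynomial.monic_prod_of_monic _ _ hmon) ?_
    h1 h2 h3
  rw [Polynomial.natDegree_prod_of_monic _ _ hmon]
  have h0 : T 0 ∈ Qᶜ := by
    rw [Finset.mem_compl, hQ, Finset.mem_image]
    rintro ⟨i, -, hi⟩
    exact Fin.succ_ne_zero i (hTi hi)
  refine Finset.sum_pos (fun e _ => ?_) ⟨_, h0⟩
  rw [Polynomial.natDegree_X_add_C]
  exact one_pos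

theorem isDomain_GRing
    (hdet : ∀ T : Fin (d + 1 + 1) → Fin (m + 1), Function.Injective T → (cm c T).det ≠ 0)
    (hm : d + 1 ≤ m) {lam : K} (hlam : lam ≠ 0) : IsDomain (GRing lam c a) := by
  have hirr := irreducible_geqn (a := a) hdet hm hlam
  have hp : (Ideal.span {geqn lam c a}).IsPrime :=
    (Ideal.span_singleton_prime hirr.ne_zero).2 hirr.prime
  exact Ideal.Quotient.isDomain _

end Irr

end Pool.Agent.TH826.GA
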