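import Pool.Agent.TH826.SX.Points
set_option autoImplicit false

/-!
Tori in the complex varieties `∏_e H_e = η` at a point where `d + 1` of the `H_e` vanish and are
coordinates.
-/

namespace Pool.Agent.TH826.GA

open Filter Topology

open Pool.Agent.TH826.MK

open Pool.Agent.TH826.SX

section pts

variable {d : ℕ} {ι : Type*} [Fintype ι] [DecidableEq ι] (T : Fin (d + 1) → ι)

/-- the orders of the functions at the vertex `T` -/
noncomputable def rowT (e : ι) : Fin (d + 1) → ℝ := ∑ j, if T j = e then vrow d j else 0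

/-- the monomials of the functions at the vertex `T` -/
noncomputable def mT (e : ι) (ζ : (Fin d → ℂ) × ℂ) : ℂ :=
  ∏ j, if T j = e then (Fin.cons ζ.2 ζ.1 : Fin (d + 1) → ℂ) j else 1

variable {T}

omit [Fintype ι] in
theorem rowT_T (hT : Function.Injective T) (j : Fin (d + 1)) : rowT T (T j) = vrow d j := by
  unfold rowT
  rw [Finset.sum_eq_single j]
  · rw [if_pos rfl]
  · intro i _ hi
    rw [if_neg fun h => hi (hT h)]
  · intro h
    exact absurd (Finset.mem_univ j) h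

omit [Fintype ι] in
theorem rowT_ne {e : ι} (he : ∀ j, T j ≠ e) : rowT T e = 0 := by
  unfold rowT
  exact Finset.sum_eq_zero fun j _ => by rw [if_neg (he j)]

omit [Fintype ι] in
theorem mT_T (hT : Function.Injective T) (j : Fin (d + 1)) (ζ : (Fin d → ℂ) × ℂ) :
    mT T (T j) ζ = (Fin.cons ζ.2 ζ.1 : Fin (d + 1) → ℂ) j := by
  unfold mT
  rw [Finset.prod_eq_single j]
  · rw [if_pos rfl]
  · intro i _ hi
    rw [if_neg fun h => hi (hT h)]
  · intro h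
    exact absurd (Finset.mem_univ j) h

omit [Fintype ι] in
theorem mT_ne {e : ι} (he : ∀ j, T j ≠ e) (ζ : (Fin d → ℂ) × ℂ) : mT T e ζ = 1 := by
  unfold mT
  exact Finset.prod_eq_one fun j _ => by rw [if_neg (he j)]

omit [Fintype ι] in
theorem mT_props (hT : Function.Injective T) {ρ : ℝ} {η : ℂ} (hρ : 0 < ρ) (hη : η ≠ 0) (e : ι) :
    Good (fun θ : Fin d → ℝ => mT T e (zt ρ η θ)) ∧
    (∀ j θ, lw (fun θ : Fin d → ℝ => mT T e (zt ρ η θ)) j θ =
      2 * Real.pi * Complex.I * rowT T e j.succ) ∧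
    ∀ θ : Fin d → ℝ, |Real.log ‖mT T e (zt ρ η θ)‖ - rowT T e 0 * Real.log ‖η‖| ≤
      (d + 1) * |Real.log ρ| := by
  by_cases h : ∃ j, T j = e
  · obtain ⟨j, rfl⟩ := h
    simp only [mT_T hT, rowT_T hT]
    have h1 := mono_props (d := d) 0 hρ hη ((0 : Fin (d + 2)).succAbove j)
    simp only [mon_succAbove, row_succAbove] at h1
    exact h1
  · push Not at h
    simp only [mT_ne h, rowT_ne h]
    refine ⟨good_const one_ne_zero, fun j θ => ?_, fun θ => ?_⟩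
    · rw [lw_const]
      simp
    · have : (0 : ℝ) ≤ (d + 1) * |Real.log ρ| := by positivity
      simpa using this

variable {H : ι → (Fin d → ℂ) × ℂ → ℂ}

/-- the product of the functions that do not vanish at the vertex -/
noncomputable def QH (T : Fin (d + 1) → ι) (H : ι → (Fin d → ℂ) × ℂ → ℂ)
    (u : (Fin d → ℂ) × ℂ) : ℂ :=
  ∏ e ∈ (Finset.univ.image T)ᶜ, H e u

theorem prod_H (hT : Function.Injective T)
    (hTH : ∀ j u, H (T j) u = (Fin.cons u.2 u.1 : Fin (d + 1) → ℂ) j) (u : (Fin d → ℂ) × ℂ) :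
    ∏ e, H e u = (∏ k, u.1 k) * (u.2 * QH T H u) := by
  rw [← Finset.prod_mul_prod_compl (Finset.univ.image T), Finset.prod_image (by
    intro i _ j _ h
    exact hT h)]
  simp only [hTH]
  rw [Fin.prod_univ_succ (fun j : Fin (d + 1) => (Fin.cons u.2 u.1 : Fin (d + 1) → ℂ) j)]
  simp only [Fin.cons_zero, Fin.cons_succ]
  unfold QH
  ring

theorem contDiff_QH (hH : ∀ e, ContDiff ℂ 2 (H e)) : ContDiff ℂ 2 (QH T H) := by
  unfold QH
  exact contDiff_prod fun e _ => hH e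

theorem QH_ne (hH0 : ∀ e, (∀ j, T j ≠ e) → H e 0 ≠ 0) : QH T H 0 ≠ 0 := by
  unfold QH
  refine Finset.prod_ne_zero_iff.2 fun e he => hH0 e fun j h => ?_
  rw [Finset.mem_compl] at he
  exact he (Finset.mem_image.2 ⟨j, Finset.mem_univ j, h⟩)

theorem exists_factor (hT : Function.Injective T) (hH : ∀ e, ContDiff ℂ 2 (H e))
    (hTH : ∀ j u, H (T j) u = (Fin.cons u.2 u.1 : Fin (d + 1) → ℂ) j)
    (hH0 : ∀ e, (∀ j, T j ≠ e) → H e 0 ≠ 0) {Y : (Fin d → ℂ) × ℂ → ℂ}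
    (hY : ContDiffAt ℂ 2 Y 0) (hY0 : Y 0 = 0)
    (hYQ : ∀ᶠ ζ in 𝓝 (0 : (Fin d → ℂ) × ℂ), Y ζ * QH T H (ζ.1, Y ζ) = ζ.2) (e : ι) :
    ∃ φ : (Fin d → ℂ) × ℂ → ℂ, ContDiffAt ℂ 2 φ 0 ∧ φ 0 ≠ 0 ∧
      ∀ᶠ ζ in 𝓝 (0 : (Fin d → ℂ) × ℂ), H e (ζ.1, Y ζ) = mT T e ζ * φ ζ := by
  set U : (Fin d → ℂ) × ℂ → (Fin d → ℂ) × ℂ := fun ζ => (ζ.1, Y ζ) with hU
  have hU0 : U 0 = 0 := by
    show ((0 : (Fin d → ℂ) × ℂ).1, Y 0) = 0
    rw [hY0]
    rfl
  have hUc : ContDiffAt ℂ 2 U 0 := contDiffAt_fst.prodMk hY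
  have hQc : ContDiffAt ℂ 2 (fun ζ => QH T H (U ζ)) 0 :=
    ((contDiff_QH hH).contDiffAt).comp (0 : (Fin d → ℂ) × ℂ) hUc
  have hQ0 : QH T H (U 0) ≠ 0 := by
    rw [hU0]
    exact QH_ne hH0
  by_cases h : ∃ j, T j = e
  · obtain ⟨j, rfl⟩ := h
    simp only [hTH, mT_T hT]
    refine Fin.cases ?_ (fun j => ?_) j
    · refine ⟨fun ζ => (QH T H (U ζ))⁻¹, hQc.inv hQ0, inv_ne_zero hQ0, ?_⟩
      filter_upwards [hYQ, hQc.continuousAt.eventually_ne hQ0] with ζ h1 h2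
      simp only [Fin.cons_zero]
      rw [eq_mul_inv_iff_mul_eq₀ h2]
      exact h1
    · refine ⟨fun _ => 1, contDiffAt_const, one_ne_zero, Eventually.of_forall fun ζ => ?_⟩
      simp only [Fin.cons_succ, mul_one]
  · push Not at h
    refine ⟨fun ζ => H e (U ζ), ((hH e).contDiffAt).comp (0 : (Fin d → ℂ) × ℂ) hUc, ?_,
      Eventually.of_forall fun ζ => ?_⟩
    · show H e (U 0) ≠ 0
      rw [hU0]
      exact hH0 e h
    · rw [mT_ne h, one_mul]

/-- The tori at the vertices. -/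
theorem exists_points (hT : Function.Injective T) (hH : ∀ e, ContDiff ℂ 2 (H e))
    (hTH : ∀ j u, H (T j) u = (Fin.cons u.2 u.1 : Fin (d + 1) → ℂ) j)
    (hH0 : ∀ e, (∀ j, T j ≠ e) → H e 0 ≠ 0) {ε : ℝ} (hε : 0 < ε) :
    ∃ η0 : ℝ, 0 < η0 ∧ ∀ η : ℂ, η ≠ 0 → ‖η‖ < η0 → Real.log ‖η‖ < 0 ∧
      ∃ X : (Fin d → ℝ) → (Fin d → ℂ) × ℂ, ContDiff ℝ 2 X ∧
        (∀ θ i, X (θ + Pi.single i 1) = X θ) ∧ (∀ θ, ∏ e, H e (X θ) = η) ∧
        (∀ e, Good fun θ => H e (X θ)) ∧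
        ∀ e θ, |Real.log ‖H e (X θ)‖ / Real.log ‖η‖ - rowT T e 0| ≤ ε ∧
          ∀ j, ‖lw (fun θ => H e (X θ)) j θ -
            2 * Real.pi * Complex.I * rowT T e j.succ‖ ≤ ε := by
  obtain ⟨Y, hY, hY0, hYQ⟩ := exists_solution (QH T H) (contDiff_QH hH) (QH_ne hH0)
  choose φ hφ1 hφ2 hφ3 using exists_factor hT hH hTH hH0 hY hY0 hYQ
  choose C hC using fun e => exists_nice (hφ1 e) (hφ2 e)
  have hall := (hY.eventually (by norm_num)).and (hYQ.and
    ((eventually_all.2 fun e => hφ3 e).and (eventually_all.2 fun e => hC e)))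
  obtain ⟨δ, hδ, hball⟩ := Metric.eventually_nhds_iff.1 hall
  set C0 : ℝ := ∑ e, |C e| with hC0
  have hC00 : 0 ≤ C0 := Finset.sum_nonneg fun k _ => abs_nonneg _
  have hCle : ∀ e, C e ≤ C0 := fun e =>
    (le_abs_self _).trans (Finset.single_le_sum (f := fun e => |C e|)
      (fun j _ => abs_nonneg _) (Finset.mem_univ e))
  have hnice : ∀ e, Nice δ C0 (φ e) := by
    intro e ζ hζ
    obtain ⟨-, -, -, h⟩ := hball (y := ζ) (by rwa [dist_zero_right])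
    obtain ⟨a1, a2, a3, a4⟩ := h e
    exact ⟨a1, a2, a3.trans (hCle e), a4.trans (hCle e)⟩
  set ρ : ℝ := min (δ / 2) (ε / (2 * Real.pi * (C0 + 1))) with hρdef
  have hpi := Real.pi_pos
  have hρ : 0 < ρ := lt_min (by linarith) (by positivity)
  have hρδ : ρ < δ := (min_le_left _ _).trans_lt (by linarith)
  have hρε : C0 * (2 * Real.pi * ρ) ≤ ε := by
    have h1 : ρ ≤ ε / (2 * Real.pi * (C0 + 1)) := min_le_right _ _
    rw [le_div_iff₀ (by positivity)] at h1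
    calc C0 * (2 * Real.pi * ρ) ≤ (C0 + 1) * (2 * Real.pi * ρ) :=
          mul_le_mul_of_nonneg_right (by linarith) (by positivity)
      _ = ρ * (2 * Real.pi * (C0 + 1)) := by ring
      _ ≤ ε := h1
  set M : ℝ := (C0 + (d + 1) * |Real.log ρ|) / ε + 1 with hM
  have hM1 : 1 ≤ M := by
    have : 0 ≤ (C0 + (d + 1) * |Real.log ρ|) / ε := by positivity
    rw [hM]
    linarith
  refine ⟨min (ρ ^ (d + 1)) (Real.exp (-M)), lt_min (by positivity) (Real.exp_pos _),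
    fun η hη0 hη => ?_⟩
  have hηρ : ‖η‖ ≤ ρ ^ (d + 1) := (hη.trans_le (min_le_left _ _)).le
  have hlog : Real.log ‖η‖ < -M := by
    rw [Real.log_lt_iff_lt_exp (norm_pos_iff.2 hη0)]
    exact hη.trans_le (min_le_right _ _)
  have hlog0 : Real.log ‖η‖ ≠ 0 := by linarith
  have habs : M ≤ |Real.log ‖η‖| := by
    rw [abs_of_neg (by linarith)]
    linarith
  refine ⟨by linarith, ?_⟩
  have hz : ∀ θ : Fin d → ℝ, ‖zt ρ η θ‖ < δ := fun θ => (norm_zt_le hρ hηρ θ).trans_lt hρδ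
  have hb := fun θ : Fin d → ℝ => hball (y := zt ρ η θ) (by rw [dist_zero_right]; exact hz θ)
  set X : (Fin d → ℝ) → (Fin d → ℂ) × ℂ := fun θ => ((zt ρ η θ).1, Y (zt ρ η θ)) with hX
  have hfac : ∀ e, (fun θ => H e (X θ)) = fun θ => mT T e (zt ρ η θ) * φ e (zt ρ η θ) :=
    fun e => funext fun θ => (hb θ).2.2.1 e
  have hg : ∀ e, Good fun θ => φ e (zt ρ η θ) := fun e => good_nice hρ hρδ hη0 hηρ (hnice e)
  refine ⟨X, ?_, fun θ i => ?_, fun θ => ?_, fun e => ?_, fun e θ => ?_⟩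
  · rw [contDiff_iff_contDiffAt]
    intro θ
    have h1 : ContDiffAt ℝ 2 (fun ζ : (Fin d → ℂ) × ℂ => (ζ.1, Y ζ)) (zt ρ η θ) := by
      refine ContDiffAt.restrict_scalars ℝ (𝕜' := ℂ) ?_
      exact contDiffAt_fst.prodMk (hb θ).1
    exact h1.comp θ (contDiff_zt hρ hη0).contDiffAt
  · simp only [hX]
    rw [zt_add_single]
  · rw [prod_H hT hTH]
    have h1 : Y (zt ρ η θ) * QH T H ((zt ρ η θ).1, Y (zt ρ η θ)) = (zt ρ η θ).2 := (hb θ).2.1
    show (∏ k, (zt ρ η θ).1 k) * (Y (zt ρ η θ) * QH T H ((zt ρ η θ).1, Y (zt ρ η θ))) = η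
    rw [h1]
    exact mul_div_cancel₀ _ ((good_prod_circ hρ).ne_zero θ)
  · rw [hfac e]
    exact (mT_props hT hρ hη0 e).1.mul (hg e)
  · have hl := fun j => lw_nice hρ hρδ hη0 hηρ (hnice e) j θ
    obtain ⟨hm1, hm2, hm3⟩ := mT_props hT hρ hη0 e
    have hn := (hnice e) _ (hz θ)
    have hpos : 0 < |Real.log ‖η‖| := abs_pos.2 hlog0
    have hbound : C0 + (d + 1) * |Real.log ρ| ≤ ε * |Real.log ‖η‖| := by
      have h1 : (C0 + (d + 1) * |Real.log ρ|) / ε ≤ |Real.log ‖η‖| := by linarith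
      rw [div_le_iff₀ hε] at h1
      linarith
    refine ⟨?_, fun j => ?_⟩
    · rw [congrFun (hfac e) θ, norm_mul, Real.log_mul (norm_ne_zero_iff.2 (hm1.ne_zero θ))
        (norm_ne_zero_iff.2 hn.2.1)]
      have e' : (Real.log ‖mT T e (zt ρ η θ)‖ + Real.log ‖φ e (zt ρ η θ)‖) /
          Real.log ‖η‖ - rowT T e 0 = ((Real.log ‖mT T e (zt ρ η θ)‖ -
            rowT T e 0 * Real.log ‖η‖) + Real.log ‖φ e (zt ρ η θ)‖) / Real.log ‖η‖ := by
        field_simp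
        ring
      rw [e', abs_div, div_le_iff₀ hpos]
      refine (abs_add_le _ _).trans ?_
      have := hm3 θ
      have := hn.2.2.1
      linarith
    · rw [hfac e, lw_mul hm1 (hg e), hm2, add_sub_cancel_left]
      exact (hl j).trans hρε

end pts

end Pool.Agent.TH826.GA
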